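import Pool.Agent.Y580.FL.Base

/-! Functions of the substructure on five vertices, and six-vertex certificates for them. -/

set_option autoImplicit false
set_option maxRecDepth 100000
set_option maxHeartbeats 4000000
open Finset

namespace Pool.Agent.R85.GT
open Pool.Agent.H122R2.N6 Pool.Agent.H37R3.Pen Pool.Agent.H37R3.K5 Pool.Agent.Y580.FL

/-- the code of a 3-graph on five vertices -/
def cd5 (b012 b013 b023 b123 b014 b024 b124 b034 b134 b234 : ℕ) : ℕ :=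
  Nat.add b012 (Nat.mul 2 (Nat.add b013 (Nat.mul 2 (Nat.add b023 (Nat.mul 2 (Nat.add b123
    (Nat.mul 2 (Nat.add b014 (Nat.mul 2 (Nat.add b024 (Nat.mul 2 (Nat.add b124
    (Nat.mul 2 (Nat.add b034 (Nat.mul 2 (Nat.add b134 (Nat.mul 2 b234)))))))))))))))))

/-- the right side given by a table -/
def ZT (tab : ℕ → ℕ) (G C : ℕ) (b012 b013 b023 b123 b014 b024 b124 b034 b134 b234 b015 b025 b125 b035 b135 b235 b045 b145 b245 b345 : ℕ) : ℕ :=
  Nat.sub C (Nat.mul G (Nat.add (tab (cd5 b012 b013 b023 b123 b014 b024 b124 b034 b134 b234))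
    (Nat.add (tab (cd5 b012 b013 b023 b123 b015 b025 b125 b035 b135 b235))
    (Nat.add (tab (cd5 b012 b014 b024 b124 b015 b025 b125 b045 b145 b245))
    (Nat.add (tab (cd5 b013 b014 b034 b134 b015 b035 b135 b045 b145 b345))
    (Nat.add (tab (cd5 b023 b024 b034 b234 b025 b035 b235 b045 b245 b345))
    (tab (cd5 b123 b124 b134 b234 b125 b135 b235 b145 b245 b345))))))))

/-- the table is invariant under the adjacent transpositions -/
def invk (tab : ℕ → ℕ) : Bool := B2 fun b012 => B2 fun b013 => B2 fun b023 => B2 fun b123 => B2 fun b014 => B2 fun b024 => B2 fun b124 => B2 fun b034 => B2 fun b134 => B2 fun b234 =>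
  and (Nat.beq (tab (cd5 b012 b013 b123 b023 b014 b124 b024 b134 b034 b234)) (tab (cd5 b012 b013 b023 b123 b014 b024 b124 b034 b134 b234)))
  (and (Nat.beq (tab (cd5 b012 b023 b013 b123 b024 b014 b124 b034 b234 b134)) (tab (cd5 b012 b013 b023 b123 b014 b024 b124 b034 b134 b234)))
  (and (Nat.beq (tab (cd5 b013 b012 b023 b123 b014 b034 b134 b024 b124 b234)) (tab (cd5 b012 b013 b023 b123 b014 b024 b124 b034 b134 b234)))
  (Nat.beq (tab (cd5 b012 b014 b024 b124 b013 b023 b123 b034 b134 b234)) (tab (cd5 b012 b013 b023 b123 b014 b024 b124 b034 b134 b234)))))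

/-- the value of the table at five points -/
def TE (tab : ℕ → ℕ) {V : Type} (E : V → V → V → ℕ) (a b c d e : V) : ℕ :=
  tab (cd5 (E a b c) (E a b d) (E a c d) (E b c d) (E a b e) (E a c e) (E b c e) (E a d e) (E b d e) (E c d e))

section
variable {V : Type} {E : V → V → V → ℕ} {tab : ℕ → ℕ}

theorem inv_at (hE : Sy E) (hi : invk tab = true) (a b c d e : V) :
    (tab (cd5 (E a b c) (E a b d) (E b c d) (E a c d) (E a b e) (E b c e) (E a c e) (E b d e) (E a d e) (E c d e)) = TE tab E a b c d e) ∧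
    (tab (cd5 (E a b c) (E a c d) (E a b d) (E b c d) (E a c e) (E a b e) (E b c e) (E a d e) (E c d e) (E b d e)) = TE tab E a b c d e) ∧
    (tab (cd5 (E a b d) (E a b c) (E a c d) (E b c d) (E a b e) (E a d e) (E b d e) (E a c e) (E b c e) (E c d e)) = TE tab E a b c d e) ∧
    (tab (cd5 (E a b c) (E a b e) (E a c e) (E b c e) (E a b d) (E a c d) (E b c d) (E a d e) (E b d e) (E c d e)) = TE tab E a b c d e) := by
  have h := (B2_true (B2_true (B2_true (B2_true (B2_true (B2_true (B2_true (B2_true (B2_true (B2_true hi (hE.b a b c)) (hE.b a b d)) (hE.b a c d)) (hE.b b c d)) (hE.b a b e)) (hE.b a c e)) (hE.b b c e)) (hE.b a d e)) (hE.b b d e)) (hE.b c d e))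
  simp only [Bool.and_eq_true] at h
  exact ⟨Nat.eq_of_beq_eq_true h.1, Nat.eq_of_beq_eq_true h.2.1, Nat.eq_of_beq_eq_true h.2.2.1,
    Nat.eq_of_beq_eq_true h.2.2.2⟩

theorem TE_s0 (hE : Sy E) (hi : invk tab = true) (a b c d e : V) :
    TE tab E b a c d e = TE tab E a b c d e := by
  rw [← (inv_at hE hi a b c d e).1]
  unfold TE
  rw [hE.h213 a b c, hE.h213 a b d, hE.h213 a b e]

theorem TE_s1 (hE : Sy E) (hi : invk tab = true) (a b c d e : V) :
    TE tab E a c b d e = TE tab E a b c d e := by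
  rw [← (inv_at hE hi a b c d e).2.1]
  unfold TE
  rw [hE.h132 a b c, hE.h213 b c d, hE.h213 b c e]

theorem TE_s2 (hE : Sy E) (hi : invk tab = true) (a b c d e : V) :
    TE tab E a b d c e = TE tab E a b c d e := by
  rw [← (inv_at hE hi a b c d e).2.2.1]
  unfold TE
  rw [hE.h132 a c d, hE.h132 b c d, hE.h213 c d e]

theorem TE_s3 (hE : Sy E) (hi : invk tab = true) (a b c d e : V) :
    TE tab E a b c e d = TE tab E a b c d e := by
  rw [← (inv_at hE hi a b c d e).2.2.2]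
  unfold TE
  rw [hE.h132 a d e, hE.h132 b d e, hE.h132 c d e]

/-- the sum over the six points left out -/
def S6 (tab : ℕ → ℕ) (E : V → V → V → ℕ) (a b c d e f : V) : ℕ :=
  TE tab E a b c d e + (TE tab E a b c d f + (TE tab E a b c e f + (TE tab E a b d e f +
    (TE tab E a c d e f + TE tab E b c d e f))))

theorem ZE_eq (G C : ℕ) (a b c d e f : V) :
    ZE E (ZT tab G C) a b c d e f = C - G * S6 tab E a b c d e f := rfl

theorem hX0 (hE : Sy E) (hi : invk tab = true) (G C : ℕ) (a b c d e f : V) :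
    ZE E (ZT tab G C) b a c d e f = ZE E (ZT tab G C) a b c d e f := by
  rw [ZE_eq, ZE_eq]
  unfold S6
  rw [TE_s0 hE hi a b c d e, TE_s0 hE hi a b c d f, TE_s0 hE hi a b c e f, TE_s0 hE hi a b d e f,
    add_comm (TE tab E b c d e f)]

theorem hX1 (hE : Sy E) (hi : invk tab = true) (G C : ℕ) (a b c d e f : V) :
    ZE E (ZT tab G C) a c b d e f = ZE E (ZT tab G C) a b c d e f := by
  rw [ZE_eq, ZE_eq]
  unfold S6
  rw [TE_s1 hE hi a b c d e, TE_s1 hE hi a b c d f, TE_s1 hE hi a b c e f, TE_s0 hE hi b c d e f,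
    add_left_comm (TE tab E a c d e f)]

theorem hX2 (hE : Sy E) (hi : invk tab = true) (G C : ℕ) (a b c d e f : V) :
    ZE E (ZT tab G C) a b d c e f = ZE E (ZT tab G C) a b c d e f := by
  rw [ZE_eq, ZE_eq]
  unfold S6
  rw [TE_s2 hE hi a b c d e, TE_s2 hE hi a b c d f, TE_s1 hE hi a c d e f, TE_s1 hE hi b c d e f,
    add_left_comm (TE tab E a b d e f)]

theorem hX3 (hE : Sy E) (hi : invk tab = true) (G C : ℕ) (a b c d e f : V) :
    ZE E (ZT tab G C) a b c e d f = ZE E (ZT tab G C) a b c d e f := by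
  rw [ZE_eq, ZE_eq]
  unfold S6
  rw [TE_s3 hE hi a b c d e, TE_s2 hE hi a b d e f, TE_s2 hE hi a c d e f, TE_s2 hE hi b c d e f,
    add_left_comm (TE tab E a b c e f)]

end

section
variable {V : Type} [Fintype V]

/-- the sum over all five-tuples -/
def S5 (tab : ℕ → ℕ) (E : V → V → V → ℕ) : ℕ :=
  ∑ x : Fin 5 → V, TE tab E (x 0) (x 1) (x 2) (x 3) (x 4)

theorem drop (p : Fin 6) (g : (Fin 5 → V) → ℕ) :
    ∑ x : Fin 6 → V, g (fun j => x (p.succAbove j)) = Fintype.card V * ∑ y, g y := by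
  rw [← (Fin.insertNthEquiv (fun _ => V) p).sum_comp, Fintype.sum_prod_type]
  simp

theorem sumS6 (tab : ℕ → ℕ) (E : V → V → V → ℕ) :
    ∑ x : Fin 6 → V, S6 tab E (x 0) (x 1) (x 2) (x 3) (x 4) (x 5) =
      6 * (Fintype.card V * S5 tab E) := by
  have h (p : Fin 6) := drop (V := V) p (fun y => TE tab E (y 0) (y 1) (y 2) (y 3) (y 4))
  have h0 := h 0
  have h1 := h 1
  have h2 := h 2
  have h3 := h 3
  have h4 := h 4
  have h5 := h 5
  unfold S6 S5
  rw [sum_add_distrib, sum_add_distrib, sum_add_distrib, sum_add_distrib, sum_add_distrib]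
  have e0 : ∀ x : Fin 6 → V, TE tab E (x 1) (x 2) (x 3) (x 4) (x 5) = (fun y : Fin 5 → V => TE tab E (y 0) (y 1) (y 2) (y 3) (y 4)) (fun j => x ((0 : Fin 6).succAbove j)) := fun x => rfl
  have e1 : ∀ x : Fin 6 → V, TE tab E (x 0) (x 2) (x 3) (x 4) (x 5) = (fun y : Fin 5 → V => TE tab E (y 0) (y 1) (y 2) (y 3) (y 4)) (fun j => x ((1 : Fin 6).succAbove j)) := fun x => rfl
  have e2 : ∀ x : Fin 6 → V, TE tab E (x 0) (x 1) (x 3) (x 4) (x 5) = (fun y : Fin 5 → V => TE tab E (y 0) (y 1) (y 2) (y 3) (y 4)) (fun j => x ((2 : Fin 6).succAbove j)) := fun x => rfl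
  have e3 : ∀ x : Fin 6 → V, TE tab E (x 0) (x 1) (x 2) (x 4) (x 5) = (fun y : Fin 5 → V => TE tab E (y 0) (y 1) (y 2) (y 3) (y 4)) (fun j => x ((3 : Fin 6).succAbove j)) := fun x => rfl
  have e4 : ∀ x : Fin 6 → V, TE tab E (x 0) (x 1) (x 2) (x 3) (x 5) = (fun y : Fin 5 → V => TE tab E (y 0) (y 1) (y 2) (y 3) (y 4)) (fun j => x ((4 : Fin 6).succAbove j)) := fun x => rfl
  have e5 : ∀ x : Fin 6 → V, TE tab E (x 0) (x 1) (x 2) (x 3) (x 4) = (fun y : Fin 5 → V => TE tab E (y 0) (y 1) (y 2) (y 3) (y 4)) (fun j => x ((5 : Fin 6).succAbove j)) := fun x => rfl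
  rw [sum_congr rfl fun x _ => e0 x, sum_congr rfl fun x _ => e1 x, sum_congr rfl fun x _ => e2 x,
    sum_congr rfl fun x _ => e3 x, sum_congr rfl fun x _ => e4 x, sum_congr rfl fun x _ => e5 x,
    h0, h1, h2, h3, h4, h5]
  ring

theorem concl (tab : ℕ → ℕ) (E : V → V → V → ℕ) (G C R : ℕ) (htab : ∀ c, tab c ≤ 2048)
    (hG : G * 12288 ≤ C) (hC : C = 60 * 4398046511104 + R)
    (hb : (15 * 4398046511104 + 45 * 4398046511104) * (Fintype.card V : ℤ) ^ 6 ≤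
      ∑ x : Fin 6 → V, (ZE E (ZT tab G C) (x 0) (x 1) (x 2) (x 3) (x 4) (x 5) : ℤ)) :
    6 * G * (Fintype.card V * S5 tab E) ≤ R * (Fintype.card V) ^ 6 := by
  have h1 : ∀ x : Fin 6 → V, (ZE E (ZT tab G C) (x 0) (x 1) (x 2) (x 3) (x 4) (x 5) : ℤ) =
      (C : ℤ) - (G : ℤ) * ((S6 tab E (x 0) (x 1) (x 2) (x 3) (x 4) (x 5) : ℕ) : ℤ) := by
    intro x
    rw [ZE_eq]
    have h2 : S6 tab E (x 0) (x 1) (x 2) (x 3) (x 4) (x 5) ≤ 12288 := by
      unfold S6 TE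
      have := fun c => htab c
      linarith [this (cd5 (E (x 0) (x 1) (x 2)) (E (x 0) (x 1) (x 3)) (E (x 0) (x 2) (x 3)) (E (x 1) (x 2) (x 3)) (E (x 0) (x 1) (x 4)) (E (x 0) (x 2) (x 4)) (E (x 1) (x 2) (x 4)) (E (x 0) (x 3) (x 4)) (E (x 1) (x 3) (x 4)) (E (x 2) (x 3) (x 4))),
        this (cd5 (E (x 0) (x 1) (x 2)) (E (x 0) (x 1) (x 3)) (E (x 0) (x 2) (x 3)) (E (x 1) (x 2) (x 3)) (E (x 0) (x 1) (x 5)) (E (x 0) (x 2) (x 5)) (E (x 1) (x 2) (x 5)) (E (x 0) (x 3) (x 5)) (E (x 1) (x 3) (x 5)) (E (x 2) (x 3) (x 5))),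
        this (cd5 (E (x 0) (x 1) (x 2)) (E (x 0) (x 1) (x 4)) (E (x 0) (x 2) (x 4)) (E (x 1) (x 2) (x 4)) (E (x 0) (x 1) (x 5)) (E (x 0) (x 2) (x 5)) (E (x 1) (x 2) (x 5)) (E (x 0) (x 4) (x 5)) (E (x 1) (x 4) (x 5)) (E (x 2) (x 4) (x 5))),
        this (cd5 (E (x 0) (x 1) (x 3)) (E (x 0) (x 1) (x 4)) (E (x 0) (x 3) (x 4)) (E (x 1) (x 3) (x 4)) (E (x 0) (x 1) (x 5)) (E (x 0) (x 3) (x 5)) (E (x 1) (x 3) (x 5)) (E (x 0) (x 4) (x 5)) (E (x 1) (x 4) (x 5)) (E (x 3) (x 4) (x 5))),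
        this (cd5 (E (x 0) (x 2) (x 3)) (E (x 0) (x 2) (x 4)) (E (x 0) (x 3) (x 4)) (E (x 2) (x 3) (x 4)) (E (x 0) (x 2) (x 5)) (E (x 0) (x 3) (x 5)) (E (x 2) (x 3) (x 5)) (E (x 0) (x 4) (x 5)) (E (x 2) (x 4) (x 5)) (E (x 3) (x 4) (x 5))),
        this (cd5 (E (x 1) (x 2) (x 3)) (E (x 1) (x 2) (x 4)) (E (x 1) (x 3) (x 4)) (E (x 2) (x 3) (x 4)) (E (x 1) (x 2) (x 5)) (E (x 1) (x 3) (x 5)) (E (x 2) (x 3) (x 5)) (E (x 1) (x 4) (x 5)) (E (x 2) (x 4) (x 5)) (E (x 3) (x 4) (x 5)))]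
    have h3 : G * S6 tab E (x 0) (x 1) (x 2) (x 3) (x 4) (x 5) ≤ C :=
      (Nat.mul_le_mul_left _ h2).trans hG
    rw [Nat.cast_sub h3, Nat.cast_mul]
  simp only [h1] at hb
  rw [sum_sub_distrib, sum_const, card_univ, Fintype.card_fun, Fintype.card_fin, nsmul_eq_mul,
    ← mul_sum] at hb
  have h4 : ∑ x : Fin 6 → V, ((S6 tab E (x 0) (x 1) (x 2) (x 3) (x 4) (x 5) : ℕ) : ℤ) =
      ((6 * (Fintype.card V * S5 tab E) : ℕ) : ℤ) := by
    rw [← sumS6, Nat.cast_sum]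
  rw [h4, hC] at hb
  push_cast at hb
  have h5 : (6 * (G : ℤ) * ((Fintype.card V : ℤ) * (S5 tab E : ℤ))) ≤ (R : ℤ) * (Fintype.card V : ℤ) ^ 6 := by
    linarith
  exact_mod_cast h5

end

end Pool.Agent.R85.GT
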