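import Pool.Agent.R85.GT.Base

/-! Homomorphism counts of the 3-graphs on five vertices, invariance under relabelling. -/

set_option autoImplicit false
set_option maxRecDepth 100000
set_option maxHeartbeats 4000000
open Finset

namespace Pool.Agent.R85.GT
open Pool.Agent.H122R2.N6 Pool.Agent.H37R3.Pen Pool.Agent.H37R3.K5 Pool.Agent.Y580.FL

/-- whether `f` is a subset of `m` -/
def sbn (f m : ℕ) : ℕ := cond (Nat.beq (Nat.land f m) f) 1 0

theorem land_step (a b m n : ℕ) (ha : Bt a) (hb : Bt b) :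
    Nat.land (Nat.add a (Nat.mul 2 m)) (Nat.add b (Nat.mul 2 n)) = Nat.add a (Nat.mul 2 m) ↔
      (a ≤ b ∧ Nat.land m n = m) := by
  have key : ∀ (x y : Bool), Nat.land (Nat.bit x m) (Nat.bit y n) = Nat.bit (x && y) (Nat.land m n) := by
    intro x y
    exact Nat.land_bit x m y n
  have b0 : ∀ m : ℕ, Nat.add 0 (Nat.mul 2 m) = Nat.bit false m := by intro m; simp [Nat.bit]
  have b1 : ∀ m : ℕ, Nat.add 1 (Nat.mul 2 m) = Nat.bit true m := by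
    intro m; simp [Nat.bit]; omega
  have e0 : ∀ k : ℕ, Nat.bit false k = 2 * k := by intro k; simp [Nat.bit]
  have e1 : ∀ k : ℕ, Nat.bit true k = 2 * k + 1 := by intro k; simp [Nat.bit]
  rcases ha with rfl | rfl <;> rcases hb with rfl | rfl
  · rw [b0, b0, key, Bool.and_self, e0, e0]; constructor
    · intro h; exact ⟨le_refl _, by omega⟩
    · intro h; rw [h.2]
  · rw [b0, b1, key, Bool.false_and, e0, e0]; constructor
    · intro h; exact ⟨Nat.zero_le _, by omega⟩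
    · intro h; rw [h.2]
  · rw [b1, b0, key, Bool.true_and, e0, e1]; constructor
    · intro h; omega
    · intro h; exact absurd h.1 (by norm_num)
  · rw [b1, b1, key, Bool.and_self, e1, e1]; constructor
    · intro h; exact ⟨le_refl _, by omega⟩
    · intro h; rw [h.2]

theorem land_last (a b : ℕ) (ha : Bt a) (hb : Bt b) : Nat.land a b = a ↔ a ≤ b := by
  rcases ha with rfl | rfl <;> rcases hb with rfl | rfl <;> decide

theorem sb_iff {f012 f013 f023 f123 f014 f024 f124 f034 f134 f234 : ℕ}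
    {b012 b013 b023 b123 b014 b024 b124 b034 b134 b234 : ℕ}
    (h0 : Bt f012) (h1 : Bt f013) (h2 : Bt f023) (h3 : Bt f123) (h4 : Bt f014) (h5 : Bt f024)
    (h6 : Bt f124) (h7 : Bt f034) (h8 : Bt f134) (h9 : Bt f234)
    (g0 : Bt b012) (g1 : Bt b013) (g2 : Bt b023) (g3 : Bt b123) (g4 : Bt b014) (g5 : Bt b024)
    (g6 : Bt b124) (g7 : Bt b034) (g8 : Bt b134) (g9 : Bt b234) :
    sbn (cd5 f012 f013 f023 f123 f014 f024 f124 f034 f134 f234)
      (cd5 b012 b013 b023 b123 b014 b024 b124 b034 b134 b234) =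
    if (f012 ≤ b012 ∧ f013 ≤ b013 ∧ f023 ≤ b023 ∧ f123 ≤ b123 ∧ f014 ≤ b014 ∧ f024 ≤ b024 ∧
      f124 ≤ b124 ∧ f034 ≤ b034 ∧ f134 ≤ b134 ∧ f234 ≤ b234) then 1 else 0 := by
  have h : Nat.land (cd5 f012 f013 f023 f123 f014 f024 f124 f034 f134 f234)
      (cd5 b012 b013 b023 b123 b014 b024 b124 b034 b134 b234) =
      cd5 f012 f013 f023 f123 f014 f024 f124 f034 f134 f234 ↔
    (f012 ≤ b012 ∧ f013 ≤ b013 ∧ f023 ≤ b023 ∧ f123 ≤ b123 ∧ f014 ≤ b014 ∧ f024 ≤ b024 ∧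
      f124 ≤ b124 ∧ f034 ≤ b034 ∧ f134 ≤ b134 ∧ f234 ≤ b234) := by
    unfold cd5
    rw [land_step _ _ _ _ h0 g0, land_step _ _ _ _ h1 g1, land_step _ _ _ _ h2 g2,
      land_step _ _ _ _ h3 g3, land_step _ _ _ _ h4 g4, land_step _ _ _ _ h5 g5,
      land_step _ _ _ _ h6 g6, land_step _ _ _ _ h7 g7, land_step _ _ _ _ h8 g8,
      land_last _ _ h9 g9]
  unfold sbn
  split_ifs with hc
  · rw [h.mpr hc, Nat.beq_refl]; rfl
  · have : Nat.beq (Nat.land (cd5 f012 f013 f023 f123 f014 f024 f124 f034 f134 f234)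
      (cd5 b012 b013 b023 b123 b014 b024 b124 b034 b134 b234))
      (cd5 f012 f013 f023 f123 f014 f024 f124 f034 f134 f234) = false := by
      rw [← Bool.not_eq_true]
      intro h2
      exact hc (h.mp (Nat.eq_of_beq_eq_true h2))
    rw [this]; rfl

section
variable {V : Type} [Fintype V] (E : V → V → V → ℕ)

/-- the number of homomorphisms -/
def NF (f : ℕ) : ℕ := S5 (sbn f) E

theorem reindex (s : Equiv.Perm (Fin 5)) (g : (Fin 5 → V) → ℕ) :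
    ∑ x : Fin 5 → V, g (fun j => x (s j)) = ∑ x, g x :=
  (Equiv.arrowCongr s.symm (Equiv.refl V)).sum_comp g

variable {E}

theorem NF_s0 (hE : Sy E) {f012 f013 f023 f123 f014 f024 f124 f034 f134 f234 : ℕ}
    (h0 : Bt f012) (h1 : Bt f013) (h2 : Bt f023) (h3 : Bt f123) (h4 : Bt f014) (h5 : Bt f024)
    (h6 : Bt f124) (h7 : Bt f034) (h8 : Bt f134) (h9 : Bt f234) :
    NF E (cd5 f012 f013 f123 f023 f014 f124 f024 f134 f034 f234) =
      NF E (cd5 f012 f013 f023 f123 f014 f024 f124 f034 f134 f234) := by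
  unfold NF S5
  rw [← reindex (Equiv.swap 0 1) (fun x => TE (sbn (cd5 f012 f013 f023 f123 f014 f024 f124 f034 f134 f234)) E (x 0) (x 1) (x 2) (x 3) (x 4))]
  refine sum_congr rfl fun x _ => ?_
  change _ = TE (sbn (cd5 f012 f013 f023 f123 f014 f024 f124 f034 f134 f234)) E (x 1) (x 0) (x 2) (x 3) (x 4)
  unfold TE
  rw [sb_iff h0 h1 h3 h2 h4 h6 h5 h8 h7 h9 (hE.b _ _ _) (hE.b _ _ _) (hE.b _ _ _) (hE.b _ _ _) (hE.b _ _ _) (hE.b _ _ _) (hE.b _ _ _) (hE.b _ _ _) (hE.b _ _ _) (hE.b _ _ _),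
    sb_iff h0 h1 h2 h3 h4 h5 h6 h7 h8 h9 (hE.b _ _ _) (hE.b _ _ _) (hE.b _ _ _) (hE.b _ _ _) (hE.b _ _ _) (hE.b _ _ _) (hE.b _ _ _) (hE.b _ _ _) (hE.b _ _ _) (hE.b _ _ _),
    hE.h213 (x 0) (x 1) (x 2), hE.h213 (x 0) (x 1) (x 3), hE.h213 (x 0) (x 1) (x 4)]
  exact if_congr (by constructor <;> (rintro ⟨a0, a1, a2, a3, a4, a5, a6, a7, a8, a9⟩; refine ⟨?_, ?_, ?_, ?_, ?_, ?_, ?_, ?_, ?_, ?_⟩ <;> assumption)) rfl rfl

theorem NF_s1 (hE : Sy E) {f012 f013 f023 f123 f014 f024 f124 f034 f134 f234 : ℕ}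
    (h0 : Bt f012) (h1 : Bt f013) (h2 : Bt f023) (h3 : Bt f123) (h4 : Bt f014) (h5 : Bt f024)
    (h6 : Bt f124) (h7 : Bt f034) (h8 : Bt f134) (h9 : Bt f234) :
    NF E (cd5 f012 f023 f013 f123 f024 f014 f124 f034 f234 f134) =
      NF E (cd5 f012 f013 f023 f123 f014 f024 f124 f034 f134 f234) := by
  unfold NF S5
  rw [← reindex (Equiv.swap 1 2) (fun x => TE (sbn (cd5 f012 f013 f023 f123 f014 f024 f124 f034 f134 f234)) E (x 0) (x 1) (x 2) (x 3) (x 4))]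
  refine sum_congr rfl fun x _ => ?_
  change _ = TE (sbn (cd5 f012 f013 f023 f123 f014 f024 f124 f034 f134 f234)) E (x 0) (x 2) (x 1) (x 3) (x 4)
  unfold TE
  rw [sb_iff h0 h2 h1 h3 h5 h4 h6 h7 h9 h8 (hE.b _ _ _) (hE.b _ _ _) (hE.b _ _ _) (hE.b _ _ _) (hE.b _ _ _) (hE.b _ _ _) (hE.b _ _ _) (hE.b _ _ _) (hE.b _ _ _) (hE.b _ _ _),
    sb_iff h0 h1 h2 h3 h4 h5 h6 h7 h8 h9 (hE.b _ _ _) (hE.b _ _ _) (hE.b _ _ _) (hE.b _ _ _) (hE.b _ _ _) (hE.b _ _ _) (hE.b _ _ _) (hE.b _ _ _) (hE.b _ _ _) (hE.b _ _ _),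
    hE.h132 (x 0) (x 1) (x 2), hE.h213 (x 1) (x 2) (x 3), hE.h213 (x 1) (x 2) (x 4)]
  exact if_congr (by constructor <;> (rintro ⟨a0, a1, a2, a3, a4, a5, a6, a7, a8, a9⟩; refine ⟨?_, ?_, ?_, ?_, ?_, ?_, ?_, ?_, ?_, ?_⟩ <;> assumption)) rfl rfl

theorem NF_s2 (hE : Sy E) {f012 f013 f023 f123 f014 f024 f124 f034 f134 f234 : ℕ}
    (h0 : Bt f012) (h1 : Bt f013) (h2 : Bt f023) (h3 : Bt f123) (h4 : Bt f014) (h5 : Bt f024)
    (h6 : Bt f124) (h7 : Bt f034) (h8 : Bt f134) (h9 : Bt f234) :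
    NF E (cd5 f013 f012 f023 f123 f014 f034 f134 f024 f124 f234) =
      NF E (cd5 f012 f013 f023 f123 f014 f024 f124 f034 f134 f234) := by
  unfold NF S5
  rw [← reindex (Equiv.swap 2 3) (fun x => TE (sbn (cd5 f012 f013 f023 f123 f014 f024 f124 f034 f134 f234)) E (x 0) (x 1) (x 2) (x 3) (x 4))]
  refine sum_congr rfl fun x _ => ?_
  change _ = TE (sbn (cd5 f012 f013 f023 f123 f014 f024 f124 f034 f134 f234)) E (x 0) (x 1) (x 3) (x 2) (x 4)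
  unfold TE
  rw [sb_iff h1 h0 h2 h3 h4 h7 h8 h5 h6 h9 (hE.b _ _ _) (hE.b _ _ _) (hE.b _ _ _) (hE.b _ _ _) (hE.b _ _ _) (hE.b _ _ _) (hE.b _ _ _) (hE.b _ _ _) (hE.b _ _ _) (hE.b _ _ _),
    sb_iff h0 h1 h2 h3 h4 h5 h6 h7 h8 h9 (hE.b _ _ _) (hE.b _ _ _) (hE.b _ _ _) (hE.b _ _ _) (hE.b _ _ _) (hE.b _ _ _) (hE.b _ _ _) (hE.b _ _ _) (hE.b _ _ _) (hE.b _ _ _),
    hE.h132 (x 0) (x 2) (x 3), hE.h132 (x 1) (x 2) (x 3), hE.h213 (x 2) (x 3) (x 4)]
  exact if_congr (by constructor <;> (rintro ⟨a0, a1, a2, a3, a4, a5, a6, a7, a8, a9⟩; refine ⟨?_, ?_, ?_, ?_, ?_, ?_, ?_, ?_, ?_, ?_⟩ <;> assumption)) rfl rfl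

theorem NF_s3 (hE : Sy E) {f012 f013 f023 f123 f014 f024 f124 f034 f134 f234 : ℕ}
    (h0 : Bt f012) (h1 : Bt f013) (h2 : Bt f023) (h3 : Bt f123) (h4 : Bt f014) (h5 : Bt f024)
    (h6 : Bt f124) (h7 : Bt f034) (h8 : Bt f134) (h9 : Bt f234) :
    NF E (cd5 f012 f014 f024 f124 f013 f023 f123 f034 f134 f234) =
      NF E (cd5 f012 f013 f023 f123 f014 f024 f124 f034 f134 f234) := by
  unfold NF S5
  rw [← reindex (Equiv.swap 3 4) (fun x => TE (sbn (cd5 f012 f013 f023 f123 f014 f024 f124 f034 f134 f234)) E (x 0) (x 1) (x 2) (x 3) (x 4))]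
  refine sum_congr rfl fun x _ => ?_
  change _ = TE (sbn (cd5 f012 f013 f023 f123 f014 f024 f124 f034 f134 f234)) E (x 0) (x 1) (x 2) (x 4) (x 3)
  unfold TE
  rw [sb_iff h0 h4 h5 h6 h1 h2 h3 h7 h8 h9 (hE.b _ _ _) (hE.b _ _ _) (hE.b _ _ _) (hE.b _ _ _) (hE.b _ _ _) (hE.b _ _ _) (hE.b _ _ _) (hE.b _ _ _) (hE.b _ _ _) (hE.b _ _ _),
    sb_iff h0 h1 h2 h3 h4 h5 h6 h7 h8 h9 (hE.b _ _ _) (hE.b _ _ _) (hE.b _ _ _) (hE.b _ _ _) (hE.b _ _ _) (hE.b _ _ _) (hE.b _ _ _) (hE.b _ _ _) (hE.b _ _ _) (hE.b _ _ _),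
    hE.h132 (x 0) (x 3) (x 4), hE.h132 (x 1) (x 3) (x 4), hE.h132 (x 2) (x 3) (x 4)]
  exact if_congr (by constructor <;> (rintro ⟨a0, a1, a2, a3, a4, a5, a6, a7, a8, a9⟩; refine ⟨?_, ?_, ?_, ?_, ?_, ?_, ?_, ?_, ?_, ?_⟩ <;> assumption)) rfl rfl

/-- the representative of the isomorphism class, found by adjacent transpositions -/
def ends (n : ℕ) : ℕ → ℕ → ℕ → ℕ → ℕ → ℕ → ℕ → ℕ → ℕ → ℕ → ℕ :=
  Nat.rec (fun b012 b013 b023 b123 b014 b024 b124 b034 b134 b234 => cd5 b012 b013 b023 b123 b014 b024 b124 b034 b134 b234)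
    (fun _ ih b012 b013 b023 b123 b014 b024 b124 b034 b134 b234 =>
      cond (Nat.beq (tg5 b012 b013 b023 b123 b014 b024 b124 b034 b134 b234) 0) (ih b012 b013 b123 b023 b014 b124 b024 b134 b034 b234)
      (cond (Nat.beq (tg5 b012 b013 b023 b123 b014 b024 b124 b034 b134 b234) 1) (ih b012 b023 b013 b123 b024 b014 b124 b034 b234 b134)
      (cond (Nat.beq (tg5 b012 b013 b023 b123 b014 b024 b124 b034 b134 b234) 2) (ih b013 b012 b023 b123 b014 b034 b134 b024 b124 b234)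
      (cond (Nat.beq (tg5 b012 b013 b023 b123 b014 b024 b124 b034 b134 b234) 3) (ih b012 b014 b024 b124 b013 b023 b123 b034 b134 b234)
      (cd5 b012 b013 b023 b123 b014 b024 b124 b034 b134 b234))))) n

theorem ends_NF (hE : Sy E) (n : ℕ) : ∀ {b012 b013 b023 b123 b014 b024 b124 b034 b134 b234 : ℕ},
    Bt b012 → Bt b013 → Bt b023 → Bt b123 → Bt b014 → Bt b024 → Bt b124 → Bt b034 → Bt b134 → Bt b234 →
    NF E (ends n b012 b013 b023 b123 b014 b024 b124 b034 b134 b234) =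
      NF E (cd5 b012 b013 b023 b123 b014 b024 b124 b034 b134 b234) := by
  induction n with
  | zero => intros; rfl
  | succ n ih =>
    intro b012 b013 b023 b123 b014 b024 b124 b034 b134 b234 h0 h1 h2 h3 h4 h5 h6 h7 h8 h9
    change NF E (cond (Nat.beq (tg5 b012 b013 b023 b123 b014 b024 b124 b034 b134 b234) 0) (ends n b012 b013 b123 b023 b014 b124 b024 b134 b034 b234)
      (cond (Nat.beq (tg5 b012 b013 b023 b123 b014 b024 b124 b034 b134 b234) 1) (ends n b012 b023 b013 b123 b024 b014 b124 b034 b234 b134)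
      (cond (Nat.beq (tg5 b012 b013 b023 b123 b014 b024 b124 b034 b134 b234) 2) (ends n b013 b012 b023 b123 b014 b034 b134 b024 b124 b234)
      (cond (Nat.beq (tg5 b012 b013 b023 b123 b014 b024 b124 b034 b134 b234) 3) (ends n b012 b014 b024 b124 b013 b023 b123 b034 b134 b234)
      (cd5 b012 b013 b023 b123 b014 b024 b124 b034 b134 b234))))) = _
    cases Nat.beq (tg5 b012 b013 b023 b123 b014 b024 b124 b034 b134 b234) 0 with
    | true => exact (ih h0 h1 h3 h2 h4 h6 h5 h8 h7 h9).trans (NF_s0 hE h0 h1 h2 h3 h4 h5 h6 h7 h8 h9)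
    | false =>
    cases Nat.beq (tg5 b012 b013 b023 b123 b014 b024 b124 b034 b134 b234) 1 with
    | true => exact (ih h0 h2 h1 h3 h5 h4 h6 h7 h9 h8).trans (NF_s1 hE h0 h1 h2 h3 h4 h5 h6 h7 h8 h9)
    | false =>
    cases Nat.beq (tg5 b012 b013 b023 b123 b014 b024 b124 b034 b134 b234) 2 with
    | true => exact (ih h1 h0 h2 h3 h4 h7 h8 h5 h6 h9).trans (NF_s2 hE h0 h1 h2 h3 h4 h5 h6 h7 h8 h9)
    | false =>
    cases Nat.beq (tg5 b012 b013 b023 b123 b014 b024 b124 b034 b134 b234) 3 with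
    | true => exact (ih h0 h4 h5 h6 h1 h2 h3 h7 h8 h9).trans (NF_s3 hE h0 h1 h2 h3 h4 h5 h6 h7 h8 h9)
    | false => rfl

end

/-- the bits of a code -/
def bt (c i : ℕ) : ℕ := Nat.mod (Nat.shiftRight c i) 2

theorem bt_Bt (c i : ℕ) : Bt (bt c i) := by
  unfold bt Bt
  have : Nat.mod (Nat.shiftRight c i) 2 < 2 := Nat.mod_lt _ (by norm_num)
  omega

end Pool.Agent.R85.GT
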