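import Pool.Agent.R85.GT.Hom
import Pool.Agent.R85.GT.C0Fin
import Pool.Agent.R85.GT.C1Fin

/-! The bound for each representative. -/

set_option autoImplicit false
set_option maxRecDepth 100000
set_option maxHeartbeats 4000000
open Finset

namespace Pool.Agent.R85.GT
open Pool.Agent.H122R2.N6 Pool.Agent.H37R3.Pen Pool.Agent.H37R3.K5 Pool.Agent.Y580.FL

/-- the entries of a packed list -/
def el (L k : ℕ) : ℕ := Nat.mod (Nat.shiftRight L (Nat.mul 10 k)) 1024

/-- every entry of the packed list has the representative `r` -/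
def chkO (r L n : ℕ) : Bool := nall n fun k =>
  and (Nat.beq (cd5 (bt (el L k) 0) (bt (el L k) 1) (bt (el L k) 2) (bt (el L k) 3) (bt (el L k) 4) (bt (el L k) 5) (bt (el L k) 6) (bt (el L k) 7) (bt (el L k) 8) (bt (el L k) 9)) (el L k))
    (Nat.beq (ends 7 (bt (el L k) 0) (bt (el L k) 1) (bt (el L k) 2) (bt (el L k) 3) (bt (el L k) 4) (bt (el L k) 5) (bt (el L k) 6) (bt (el L k) 7) (bt (el L k) 8) (bt (el L k) 9)) r)

/-- the pointwise inequality -/
def chkW (t0 t1 : ℕ → ℕ) (L n b e : ℕ) : Bool := B2 fun b012 => B2 fun b013 => B2 fun b023 => B2 fun b123 => B2 fun b014 => B2 fun b024 => B2 fun b124 => B2 fun b034 => B2 fun b134 => B2 fun b234 =>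
  or (k5b b012 b013 b023 b123 b014 b024 b124 b034 b134 b234)
    (Nat.ble (Nat.mul 720 (nsum n fun k => sbn (el L k) (cd5 b012 b013 b023 b123 b014 b024 b124 b034 b134 b234)))
      (Nat.add (Nat.mul b (t1 (cd5 b012 b013 b023 b123 b014 b024 b124 b034 b134 b234)))
        (Nat.mul e (t0 (cd5 b012 b013 b023 b123 b014 b024 b124 b034 b134 b234)))))

theorem chkO_NF {V : Type} [Fintype V] {E : V → V → V → ℕ} (hE : Sy E) {r L n : ℕ}
    (h : chkO r L n = true) {k : ℕ} (hk : k < n) : NF E (el L k) = NF E r := by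
  have h1 := nall_true h k hk
  rw [Bool.and_eq_true] at h1
  have h2 := Nat.eq_of_beq_eq_true h1.1
  have h3 := Nat.eq_of_beq_eq_true h1.2
  have h4 := ends_NF hE 7 (bt_Bt (el L k) 0) (bt_Bt (el L k) 1) (bt_Bt (el L k) 2) (bt_Bt (el L k) 3) (bt_Bt (el L k) 4) (bt_Bt (el L k) 5) (bt_Bt (el L k) 6) (bt_Bt (el L k) 7) (bt_Bt (el L k) 8) (bt_Bt (el L k) 9)
  rw [h3, h2] at h4
  exact h4.symm

theorem chkW_at {V : Type} {E : V → V → V → ℕ} (hE : Sy E) (hK : NoK5 E) {t0 t1 : ℕ → ℕ}
    {L n b e : ℕ} (h : chkW t0 t1 L n b e = true) (x0 x1 x2 x3 x4 : V) :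
    720 * ∑ k ∈ range n, TE (sbn (el L k)) E x0 x1 x2 x3 x4 ≤
      b * TE t1 E x0 x1 x2 x3 x4 + e * TE t0 E x0 x1 x2 x3 x4 := by
  have h1 := (B2_true (B2_true (B2_true (B2_true (B2_true (B2_true (B2_true (B2_true (B2_true (B2_true h (hE.b x0 x1 x2)) (hE.b x0 x1 x3)) (hE.b x0 x2 x3)) (hE.b x1 x2 x3)) (hE.b x0 x1 x4)) (hE.b x0 x2 x4)) (hE.b x1 x2 x4)) (hE.b x0 x3 x4)) (hE.b x1 x3 x4)) (hE.b x2 x3 x4))
  have h2 := Nat.le_of_ble_eq_true (or_false_left h1 (hK x0 x1 x2 x3 x4))
  rw [nsum_eq] at h2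
  exact h2

theorem repB {V : Type} [Fintype V] {E : V → V → V → ℕ} (hE : Sy E) (hK : NoK5 E) (r L n b e col : ℕ)
    (hO : chkO r L n = true) (hW : chkW C0.tab C1.tab L n b e = true) (hn : 0 < n)
    (hcol : 2025 * b + 225 * e = 45 * n * col) :
    32 * NF E r ≤ col * (Fintype.card V) ^ 5 := by
  have h1 : ∑ k ∈ range n, NF E (el L k) = n * NF E r := by
    rw [sum_congr rfl fun k hk => chkO_NF hE hO (mem_range.mp hk), sum_const, card_range,
      smul_eq_mul]
  have h2 : 720 * ∑ k ∈ range n, NF E (el L k) ≤ b * S5 C1.tab E + e * S5 C0.tab E := by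
    unfold NF S5
    rw [sum_comm, mul_sum, mul_sum, mul_sum, ← sum_add_distrib]
    exact sum_le_sum fun x _ => chkW_at hE hK hW (x 0) (x 1) (x 2) (x 3) (x 4)
  rw [h1] at h2
  have h3 := Nat.mul_le_mul_left e (C0.main hE hK)
  have h4 := Nat.mul_le_mul_left b (C1.main hE hK)
  have h5 : 45 * n * (32 * NF E r) ≤ 45 * n * (col * (Fintype.card V) ^ 5) := by
    calc 45 * n * (32 * NF E r) = 2 * (720 * (n * NF E r)) := by ring
      _ ≤ 2 * (b * S5 C1.tab E + e * S5 C0.tab E) := Nat.mul_le_mul_left _ h2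
      _ = b * (2 * S5 C1.tab E) + e * (2 * S5 C0.tab E) := by ring
      _ ≤ b * (2025 * (Fintype.card V) ^ 5) + e * (225 * (Fintype.card V) ^ 5) := add_le_add h4 h3
      _ = (2025 * b + 225 * e) * (Fintype.card V) ^ 5 := by ring
      _ = 45 * n * (col * (Fintype.card V) ^ 5) := by rw [hcol]; ring
  exact Nat.le_of_mul_le_mul_left h5 (by positivity)

/-- the two-coloured triples -/
def nm (a b c : Bool) : ℕ := cond (and (Bool.xor a (not b)) (Bool.xor b (not c))) 0 1

theorem nm_sy : Sy nm where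
  b := by intro x y z; cases x <;> cases y <;> cases z <;> (unfold Bt; decide)
  h213 := by decide
  h132 := by decide

theorem O144 : chkO 144 0xc028090220822046014044108408a02408420860140481043009021048110300a0240601403 30 = true := by decide +kernel
theorem W144 : chkW C0.tab C1.tab 0xc028090220822046014044108408a02408420860140481043009021048110300a0240601403 30 12 12 = true := by decide +kernel
theorem col144 : NF nm 144 = 20 := by decide +kernel
theorem rep144 {V : Type} [Fintype V] {E : V → V → V → ℕ} (hE : Sy E) (hK : NoK5 E) :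
    32 * NF E 144 ≤ NF nm 144 * (Fintype.card V) ^ 5 := by
  rw [col144]
  exact repB hE hK _ _ _ _ _ _ O144 W144 (by norm_num) (by norm_num)

theorem O81 : chkO 81 0xd0308a8284922246418252112290921c061144310380d02c07 20 = true := by decide +kernel
theorem W81 : chkW C0.tab C1.tab 0xd0308a8284922246418252112290921c061144310380d02c07 20 4 28 = true := by decide +kernel
theorem col81 : NF nm 81 = 16 := by decide +kernel
theorem rep81 {V : Type} [Fintype V] {E : V → V → V → ℕ} (hE : Sy E) (hK : NoK5 E) :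
    32 * NF E 81 ≤ NF nm 81 * (Fintype.card V) ^ 5 := by
  rw [col81]
  exact repB hE hK _ _ _ _ _ _ O81 W81 (by norm_num) (by norm_num)

theorem O402 : chkO 402 0x348a91921c40f 5 = true := by decide +kernel
theorem W402 : chkW C0.tab C1.tab 0x348a91921c40f 5 0 12 = true := by decide +kernel
theorem col402 : NF nm 402 = 12 := by decide +kernel
theorem rep402 {V : Type} [Fintype V] {E : V → V → V → ℕ} (hE : Sy E) (hK : NoK5 E) :
    32 * NF E 402 ≤ NF nm 402 * (Fintype.card V) ^ 5 := by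
  rw [col402]
  exact repB hE hK _ _ _ _ _ _ O402 W402 (by norm_num) (by norm_num)

theorem O266 : chkO 266 0xe026083150428b02184909413 10 = true := by decide +kernel
theorem W266 : chkW C0.tab C1.tab 0xe026083150428b02184909413 10 4 0 = true := by decide +kernel
theorem col266 : NF nm 266 = 18 := by decide +kernel
theorem rep266 {V : Type} [Fintype V] {E : V → V → V → ℕ} (hE : Sy E) (hK : NoK5 E) :
    32 * NF E 266 ≤ NF nm 266 * (Fintype.card V) ^ 5 := by
  rw [col266]
  exact repB hE hK _ _ _ _ _ _ O266 W266 (by norm_num) (by norm_num)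

theorem O76 : chkO 76 0xc8310c1302b0290a228294244906308a22182a0981a05701a0621845814250530461114310941903380d0288a1250912308a214831a064160521304a114430d0320b029098230681905815 60 = true := by decide +kernel
theorem W76 : chkW C0.tab C1.tab 0xc8310c1302b0290a228294244906308a22182a0981a05701a0621845814250530461114310941903380d0288a1250912308a214831a064160521304a114430d0320b029098230681905815 60 12 84 = true := by decide +kernel
theorem col76 : NF nm 76 = 16 := by decide +kernel
theorem rep76 {V : Type} [Fintype V] {E : V → V → V → ℕ} (hE : Sy E) (hK : NoK5 E) :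
    32 * NF E 76 ≤ NF nm 76 * (Fintype.card V) ^ 5 := by
  rw [col76]
  exact repB hE hK _ _ _ _ _ _ O76 W76 (by norm_num) (by norm_num)

theorem O89 : chkO 89 0xf03a0e4388e1382d8350c330ab82b0a32869c26899261932498b22583a0d741b0629865c1585495152949469134390b3c0b42c8b1298a525893238871a465164531344b0d4330b42706c17 60 = true := by decide +kernel
theorem W89 : chkW C0.tab C1.tab 0xf03a0e4388e1382d8350c330ab82b0a32869c26899261932498b22583a0d741b0629865c1585495152949469134390b3c0b42c8b1298a525893238871a465164531344b0d4330b42706c17 60 12 60 = true := by decide +kernel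
theorem col89 : NF nm 89 = 14 := by decide +kernel
theorem rep89 {V : Type} [Fintype V] {E : V → V → V → ℕ} (hE : Sy E) (hK : NoK5 E) :
    32 * NF E 89 ≤ NF nm 89 * (Fintype.card V) ^ 5 := by
  rw [col89]
  exact repB hE hK _ _ _ _ _ _ O89 W89 (by norm_num) (by norm_num)

theorem O209 : chkO 209 0xd1342d0728c9318c4b09b22c4aa2a2a8694a4a859625192a348c62682e07721c2691a266194645835a161531324c51643507390e1348d12b09a2348b1e0741c8631544e11c390b82b0781d 60 = true := by decide +kernel
theorem W209 : chkW C0.tab C1.tab 0xd1342d0728c9318c4b09b22c4aa2a2a8694a4a859625192a348c62682e07721c2691a266194645835a161531324c51643507390e1348d12b09a2348b1e0741c8631544e11c390b82b0781d 60 0 144 = true := by decide +kernel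
theorem col209 : NF nm 209 = 12 := by decide +kernel
theorem rep209 {V : Type} [Fintype V] {E : V → V → V → ℕ} (hE : Sy E) (hK : NoK5 E) :
    32 * NF E 209 ≤ NF nm 209 * (Fintype.card V) ^ 5 := by
  rw [col209]
  exact repB hE hK _ _ _ _ _ _ O209 W209 (by norm_num) (by norm_num)

theorem O410 : chkO 410 0xf23a4e4b68d634cd2b49b92b4ab2a6a967183dd26c99a659935c50f3c48f1e4751cc4f0bc1f 30 = true := by decide +kernel
theorem W410 : chkW C0.tab C1.tab 0xf23a4e4b68d634cd2b49b92b4ab2a6a967183dd26c99a659935c50f3c48f1e4751cc4f0bc1f 30 0 60 = true := by decide +kernel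
theorem col410 : NF nm 410 = 10 := by decide +kernel
theorem rep410 {V : Type} [Fintype V] {E : V → V → V → ℕ} (hE : Sy E) (hK : NoK5 E) :
    32 * NF E 410 ≤ NF nm 410 * (Fintype.card V) ^ 5 := by
  rw [col410]
  exact repB hE hK _ _ _ _ _ _ O410 W410 (by norm_num) (by norm_num)

theorem O553 : chkO 553 0x330c1ad0a2a458a5e063143464a32546c16836 15 = true := by decide +kernel
theorem W553 : chkW C0.tab C1.tab 0x330c1ad0a2a458a5e063143464a32546c16836 15 3 15 = true := by decide +kernel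
theorem col553 : NF nm 553 = 14 := by decide +kernel
theorem rep553 {V : Type} [Fintype V] {E : V → V → V → ℕ} (hE : Sy E) (hK : NoK5 E) :
    32 * NF E 553 ≤ NF nm 553 * (Fintype.card V) ^ 5 := by
  rw [col553]
  exact repB hE hK _ _ _ _ _ _ O553 W553 (by norm_num) (by norm_num)

theorem O589 : chkO 589 0xf83d0ec38ce2b86dc30ebc28e9b2699964d8b5f06395a5655352d1b2d8b52cca725c6d16c37 30 = true := by decide +kernel
theorem W589 : chkW C0.tab C1.tab 0xf83d0ec38ce2b86dc30ebc28e9b2699964d8b5f06395a5655352d1b2d8b52cca725c6d16c37 30 6 18 = true := by decide +kernel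
theorem col589 : NF nm 589 = 12 := by decide +kernel
theorem rep589 {V : Type} [Fintype V] {E : V → V → V → ℕ} (hE : Sy E) (hK : NoK5 E) :
    32 * NF E 589 ≤ NF nm 589 * (Fintype.card V) ^ 5 := by
  rw [col589]
  exact repB hE hK _ _ _ _ _ _ O589 W589 (by norm_num) (by norm_num)

theorem O244 : chkO 244 0xf13c2ea3a2e6394d9361d4b51cb31ac370bba2e1b32b2ac696a36879e2749664e92e358ba27761d1729b46c5a662d875e1725a54e53533479173d0f2394d32b8ad2789b1ac67174570f43b 60 = true := by decide +kernel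
theorem W244 : chkW C0.tab C1.tab 0xf13c2ea3a2e6394d9361d4b51cb31ac370bba2e1b32b2ac696a36879e2749664e92e358ba27761d1729b46c5a662d875e1725a54e53533479173d0f2394d32b8ad2789b1ac67174570f43b 60 0 120 = true := by decide +kernel
theorem col244 : NF nm 244 = 10 := by decide +kernel
theorem rep244 {V : Type} [Fintype V] {E : V → V → V → ℕ} (hE : Sy E) (hK : NoK5 E) :
    32 * NF E 244 ≤ NF nm 244 * (Fintype.card V) ^ 5 := by
  rw [col244]
  exact repB hE hK _ _ _ _ _ _ O244 W244 (by norm_num) (by norm_num)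

theorem O355 : chkO 355 0xd1b45d0f38cd332cc729c9b19c5b07b62d4b4ad1b2ac5aaaa9a8e9aa568b96a5591e398da2b7a1e4789e1731c36b1a3671996558d5b16351d394d91d3b0e3368d52ac9d1f07a1d86e1783e 60 = true := by decide +kernel
theorem W355 : chkW C0.tab C1.tab 0xd1b45d0f38cd332cc729c9b19c5b07b62d4b4ad1b2ac5aaaa9a8e9aa568b96a5591e398da2b7a1e4789e1731c36b1a3671996558d5b16351d394d91d3b0e3368d52ac9d1f07a1d86e1783e 60 0 120 = true := by decide +kernel
theorem col355 : NF nm 355 = 10 := by decide +kernel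
theorem rep355 {V : Type} [Fintype V] {E : V → V → V → ℕ} (hE : Sy E) (hK : NoK5 E) :
    32 * NF E 355 ≤ NF nm 355 * (Fintype.card V) ^ 5 := by
  rw [col355]
  exact repB hE hK _ _ _ _ _ _ O355 W355 (by norm_num) (by norm_num)

theorem O371 : chkO 371 0xfa3e4f63d2f33caed3b2eb3a6e6b96de371db369d6b59d3b4dd2f0fbd2f1bb2e5adab5abaada9e8f9e67593e2f7c9f1769d36d9b36799b65d8f5e57353d1f3d4f32bc9f1f47b1dc6f17c3f 60 = true := by decide +kernel
theorem W371 : chkW C0.tab C1.tab 0xfa3e4f63d2f33caed3b2eb3a6e6b96de371db369d6b59d3b4dd2f0fbd2f1bb2e5adab5abaada9e8f9e67593e2f7c9f1769d36d9b36799b65d8f5e57353d1f3d4f32bc9f1f47b1dc6f17c3f 60 0 96 = true := by decide +kernel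
theorem col371 : NF nm 371 = 8 := by decide +kernel
theorem rep371 {V : Type} [Fintype V] {E : V → V → V → ℕ} (hE : Sy E) (hK : NoK5 E) :
    32 * NF E 371 ≤ NF nm 371 * (Fintype.card V) ^ 5 := by
  rw [col371]
  exact repB hE hK _ _ _ _ _ _ O371 W371 (by norm_num) (by norm_num)

theorem O725 : chkO 725 0xd1f39cdadab56ab7b1e36747e 10 = true := by decide +kernel
theorem W725 : chkW C0.tab C1.tab 0xd1f39cdadab56ab7b1e36747e 10 0 16 = true := by decide +kernel
theorem col725 : NF nm 725 = 8 := by decide +kernel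
theorem rep725 {V : Type} [Fintype V] {E : V → V → V → ℕ} (hE : Sy E) (hK : NoK5 E) :
    32 * NF E 725 ≤ NF nm 725 * (Fintype.card V) ^ 5 := by
  rw [col725]
  exact repB hE hK _ _ _ _ _ _ O725 W725 (by norm_num) (by norm_num)

theorem O757 : chkO 757 0xfb3daedb79d3ef5abdf367c7f 10 = true := by decide +kernel
theorem W757 : chkW C0.tab C1.tab 0xfb3daedb79d3ef5abdf367c7f 10 0 12 = true := by decide +kernel
theorem col757 : NF nm 757 = 6 := by decide +kernel
theorem rep757 {V : Type} [Fintype V] {E : V → V → V → ℕ} (hE : Sy E) (hK : NoK5 E) :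
    32 * NF E 757 ≤ NF nm 757 * (Fintype.card V) ^ 5 := by
  rw [col757]
  exact repB hE hK _ _ _ _ _ _ O757 W757 (by norm_num) (by norm_num)

theorem O621 : chkO 621 0x3f0e3a6d56cb7 5 = true := by decide +kernel
theorem W621 : chkW C0.tab C1.tab 0x3f0e3a6d56cb7 5 1 1 = true := by decide +kernel
theorem col621 : NF nm 621 = 10 := by decide +kernel
theorem rep621 {V : Type} [Fintype V] {E : V → V → V → ℕ} (hE : Sy E) (hK : NoK5 E) :
    32 * NF E 621 ≤ NF nm 621 * (Fintype.card V) ^ 5 := by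
  rw [col621]
  exact repB hE hK _ _ _ _ _ _ O621 W621 (by norm_num) (by norm_num)

theorem O217 : chkO 217 0xf07a1e4789e1783d8b54cab25c7313b8ac9b1ab8a72939ca6a99a63972538f23387a1d86e17751c9719b86a9a55d16a5955c559554e9354b92d4ad273e0e9398d9358ce334cb31cbc2e8b9 60 = true := by decide +kernel
theorem W217 : chkW C0.tab C1.tab 0xf07a1e4789e1783d8b54cab25c7313b8ac9b1ab8a72939ca6a99a63972538f23387a1d86e17751c9719b86a9a55d16a5955c559554e9354b92d4ad273e0e9398d9358ce334cb31cbc2e8b9 60 0 120 = true := by decide +kernel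
theorem col217 : NF nm 217 = 10 := by decide +kernel
theorem rep217 {V : Type} [Fintype V] {E : V → V → V → ℕ} (hE : Sy E) (hK : NoK5 E) :
    32 * NF E 217 ≤ NF nm 217 * (Fintype.card V) ^ 5 := by
  rw [col217]
  exact repB hE hK _ _ _ _ _ _ O217 W217 (by norm_num) (by norm_num)

theorem O363 : chkO 363 0xf8be1f53d1f1bb8ec7aae738de2f87dd372d9753cbb2dc7b1bbe2f2ba6ceb36b3a7a979f26e9ae679765b8f6377e1f4765ce72db56b9a75e96d5ad5e575574ed373d8ed39cdb35cbe2f4bb 60 = true := by decide +kernel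
theorem W363 : chkW C0.tab C1.tab 0xf8be1f53d1f1bb8ec7aae738de2f87dd372d9753cbb2dc7b1bbe2f2ba6ceb36b3a7a979f26e9ae679765b8f6377e1f4765ce72db56b9a75e96d5ad5e575574ed373d8ed39cdb35cbe2f4bb 60 0 96 = true := by decide +kernel
theorem col363 : NF nm 363 = 8 := by decide +kernel
theorem rep363 {V : Type} [Fintype V] {E : V → V → V → ℕ} (hE : Sy E) (hK : NoK5 E) :
    32 * NF E 363 ≤ NF nm 363 * (Fintype.card V) ^ 5 := by
  rw [col363]
  exact repB hE hK _ _ _ _ _ _ O363 W363 (by norm_num) (by norm_num)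

theorem O379 : chkO 379 0xfe3f4fcbf1f3baee7b8fdb75bbb6b79f66f76db75ed5f3dcbf 20 = true := by decide +kernel
theorem W379 : chkW C0.tab C1.tab 0xfe3f4fcbf1f3baee7b8fdb75bbb6b79f66f76db75ed5f3dcbf 20 0 24 = true := by decide +kernel
theorem col379 : NF nm 379 = 6 := by decide +kernel
theorem rep379 {V : Type} [Fintype V] {E : V → V → V → ℕ} (hE : Sy E) (hK : NoK5 E) :
    32 * NF E 379 ≤ NF nm 379 * (Fintype.card V) ^ 5 := by
  rw [col379]
  exact repB hE hK _ _ _ _ _ _ O379 W379 (by norm_num) (by norm_num)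

theorem O470 : chkO 470 0x3c9e9793dab5cb9abc9ce1f759ba5d52f3e4cf 15 = true := by decide +kernel
theorem W470 : chkW C0.tab C1.tab 0x3c9e9793dab5cb9abc9ce1f759ba5d52f3e4cf 15 0 24 = true := by decide +kernel
theorem col470 : NF nm 470 = 8 := by decide +kernel
theorem rep470 {V : Type} [Fintype V] {E : V → V → V → ℕ} (hE : Sy E) (hK : NoK5 E) :
    32 * NF E 470 ≤ NF nm 470 * (Fintype.card V) ^ 5 := by
  rw [col470]
  exact repB hE hK _ _ _ _ _ _ O470 W470 (by norm_num) (by norm_num)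

theorem O252 : chkO 252 0xf17c3ea7a3e6795d9b63d5b55cf33acd733caf27c7717baae3b72d9b5ad3b2ec7aeab9a769b9ea7697a578fa3b7a9e9799e5771d5735c76f1b96b5ab5f1765b9674f93d3f0fa3b8eb378dd 60 = true := by decide +kernel
theorem W252 : chkW C0.tab C1.tab 0xf17c3ea7a3e6795d9b63d5b55cf33acd733caf27c7717baae3b72d9b5ad3b2ec7aeab9a769b9ea7697a578fa3b7a9e9799e5771d5735c76f1b96b5ab5f1765b9674f93d3f0fa3b8eb378dd 60 0 96 = true := by decide +kernel
theorem col252 : NF nm 252 = 8 := by decide +kernel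
theorem rep252 {V : Type} [Fintype V] {E : V → V → V → ℕ} (hE : Sy E) (hK : NoK5 E) :
    32 * NF E 252 ≤ NF nm 252 * (Fintype.card V) ^ 5 := by
  rw [col252]
  exact repB hE hK _ _ _ _ _ _ O252 W252 (by norm_num) (by norm_num)

theorem O478 : chkO 478 0xfabe9f9be5f73d9f5bd3f37cbef3baed7b3eb7a7e6f97df37add773dbb6bd7b5dcbf1fbf2f9bdaf3bbae7b3ebeaf69f9ee7797e3f7e9f97d9f5779d773dbe6edaf5f5775bd3f3f4fb3bcdf 60 = true := by decide +kernel
theorem W478 : chkW C0.tab C1.tab 0xfabe9f9be5f73d9f5bd3f37cbef3baed7b3eb7a7e6f97df37add773dbb6bd7b5dcbf1fbf2f9bdaf3bbae7b3ebeaf69f9ee7797e3f7e9f97d9f5779d773dbe6edaf5f5775bd3f3f4fb3bcdf 60 0 72 = true := by decide +kernel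
theorem col478 : NF nm 478 = 6 := by decide +kernel
theorem rep478 {V : Type} [Fintype V] {E : V → V → V → ℕ} (hE : Sy E) (hK : NoK5 E) :
    32 * NF E 478 ≤ NF nm 478 * (Fintype.card V) ^ 5 := by
  rw [col478]
  exact repB hE hK _ _ _ _ _ _ O478 W478 (by norm_num) (by norm_num)

theorem O733 : chkO 733 0xf8fd5f1fb9eaf9dddb67d5f3ecf73bcdefabaedeb76dbb5ebb9f9fc7b9ed7ade7775bd5f8fe 30 = true := by decide +kernel
theorem W733 : chkW C0.tab C1.tab 0xf8fd5f1fb9eaf9dddb67d5f3ecf73bcdefabaedeb76dbb5ebb9f9fc7b9ed7ade7775bd5f8fe 30 0 36 = true := by decide +kernel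
theorem col733 : NF nm 733 = 6 := by decide +kernel
theorem rep733 {V : Type} [Fintype V] {E : V → V → V → ℕ} (hE : Sy E) (hK : NoK5 E) :
    32 * NF E 733 ≤ NF nm 733 * (Fintype.card V) ^ 5 := by
  rw [col733]
  exact repB hE hK _ _ _ _ _ _ O733 W733 (by norm_num) (by norm_num)

theorem O765 : chkO 765 0xff3fafe7f6fd7f3fbbedf7bdbf3fbeedfafe7f7ddef6fd7efdbdeefafe7f7edf777dbf5fcff 30 = true := by decide +kernel
theorem W765 : chkW C0.tab C1.tab 0xff3fafe7f6fd7f3fbbedf7bdbf3fbeedfafe7f7ddef6fd7efdbdeefafe7f7edf777dbf5fcff 30 0 24 = true := by decide +kernel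
theorem col765 : NF nm 765 = 4 := by decide +kernel
theorem rep765 {V : Type} [Fintype V] {E : V → V → V → ℕ} (hE : Sy E) (hK : NoK5 E) :
    32 * NF E 765 ≤ NF nm 765 * (Fintype.card V) ^ 5 := by
  rw [col765]
  exact repB hE hK _ _ _ _ _ _ O765 W765 (by norm_num) (by norm_num)

theorem O955 : chkO 955 0x3ebf9fddf5fbdeef7eddf3fbfafbb7dfe7f5ef 15 = true := by decide +kernel
theorem W955 : chkW C0.tab C1.tab 0x3ebf9fddf5fbdeef7eddf3fbfafbb7dfe7f5ef 15 0 12 = true := by decide +kernel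
theorem col955 : NF nm 955 = 4 := by decide +kernel
theorem rep955 {V : Type} [Fintype V] {E : V → V → V → ℕ} (hE : Sy E) (hK : NoK5 E) :
    32 * NF E 955 ≤ NF nm 955 * (Fintype.card V) ^ 5 := by
  rw [col955]
  exact repB hE hK _ _ _ _ _ _ O955 W955 (by norm_num) (by norm_num)

theorem O991 : chkO 991 0xffbfdfeff7fbfdfeff7fbfdff 10 = true := by decide +kernel
theorem W991 : chkW C0.tab C1.tab 0xffbfdfeff7fbfdfeff7fbfdff 10 0 4 = true := by decide +kernel
theorem col991 : NF nm 991 = 2 := by decide +kernel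
theorem rep991 {V : Type} [Fintype V] {E : V → V → V → ℕ} (hE : Sy E) (hK : NoK5 E) :
    32 * NF E 991 ≤ NF nm 991 * (Fintype.card V) ^ 5 := by
  rw [col991]
  exact repB hE hK _ _ _ _ _ _ O991 W991 (by norm_num) (by norm_num)

end Pool.Agent.R85.GT
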