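import Pool.Agent.R85.GT.Reps
import Pool.Agent.R85.GT.C2Fin
import Pool.Agent.R85.GT.C3Fin
import Pool.Agent.H122R2.N6.Count

/-! The trade-off with the number of edges for each representative. -/

set_option autoImplicit false
set_option maxRecDepth 100000
set_option maxHeartbeats 4000000
open Finset

namespace Pool.Agent.R85.GT
open Pool.Agent.H122R2.N6 Pool.Agent.H37R3.Pen Pool.Agent.H37R3.K5 Pool.Agent.Y580.FL

/-- the ten codes of one triple -/
def L1 : ℕ := 0x8010020040080100200400801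

theorem O32 : chkO 32 L1 10 = true := by decide +kernel

/-- the table `t'` is the table `t` plus `w` times the number of triples -/
def chkE (t t' : ℕ → ℕ) (w : ℕ) : Bool := B2 fun b012 => B2 fun b013 => B2 fun b023 => B2 fun b123 => B2 fun b014 => B2 fun b024 => B2 fun b124 => B2 fun b034 => B2 fun b134 => B2 fun b234 =>
  or (k5b b012 b013 b023 b123 b014 b024 b124 b034 b134 b234)
    (Nat.beq (t' (cd5 b012 b013 b023 b123 b014 b024 b124 b034 b134 b234))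
      (Nat.add (t (cd5 b012 b013 b023 b123 b014 b024 b124 b034 b134 b234))
        (Nat.mul w (nsum 10 fun k => sbn (el L1 k) (cd5 b012 b013 b023 b123 b014 b024 b124 b034 b134 b234)))))

theorem chkE2 : chkE C0.tab C2.tab 5 = true := by decide +kernel
theorem chkE3 : chkE C1.tab C3.tab 3 = true := by decide +kernel

section
variable {V : Type} [Fintype V] {E : V → V → V → ℕ}

theorem chkE_at (hE : Sy E) (hK : NoK5 E) {t t' : ℕ → ℕ} {w : ℕ} (h : chkE t t' w = true)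
    (x0 x1 x2 x3 x4 : V) : TE t' E x0 x1 x2 x3 x4 =
      TE t E x0 x1 x2 x3 x4 + w * ∑ k ∈ range 10, TE (sbn (el L1 k)) E x0 x1 x2 x3 x4 := by
  have h3 := (B2_true (B2_true (B2_true (B2_true (B2_true (B2_true (B2_true (B2_true (B2_true (B2_true h (hE.b x0 x1 x2)) (hE.b x0 x1 x3)) (hE.b x0 x2 x3)) (hE.b x1 x2 x3)) (hE.b x0 x1 x4)) (hE.b x0 x2 x4)) (hE.b x1 x2 x4)) (hE.b x0 x3 x4)) (hE.b x1 x3 x4)) (hE.b x2 x3 x4))
  have h4 := Nat.eq_of_beq_eq_true (or_false_left h3 (hK x0 x1 x2 x3 x4))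
  rw [nsum_eq] at h4
  exact h4

theorem edge_tab (hE : Sy E) (hK : NoK5 E) {t t' : ℕ → ℕ} {w : ℕ} (h : chkE t t' w = true) :
    S5 t' E = S5 t E + 10 * w * NF E 32 := by
  have h1 : ∑ k ∈ range 10, NF E (el L1 k) = 10 * NF E 32 := by
    rw [sum_congr rfl fun k hk => chkO_NF hE O32 (mem_range.mp hk), sum_const, card_range,
      smul_eq_mul]
  have h2 : S5 t' E = S5 t E + w * ∑ k ∈ range 10, NF E (el L1 k) := by
    unfold NF S5
    rw [sum_comm, mul_sum, ← sum_add_distrib]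
    exact sum_congr rfl fun x _ => chkE_at hE hK h _ _ _ _ _
  rw [h2, h1]
  ring

theorem sum_cons {n : ℕ} (g : (Fin (n + 1) → V) → ℕ) :
    ∑ x, g x = ∑ a, ∑ y : Fin n → V, g (Fin.cons a y) := by
  rw [← (Fin.consEquiv (fun _ => V)).sum_comp, Fintype.sum_prod_type]
  rfl

theorem sum5 (g : V → V → V → V → V → ℕ) :
    ∑ x : Fin 5 → V, g (x 0) (x 1) (x 2) (x 3) (x 4) = ∑ a, ∑ b, ∑ c, ∑ d, ∑ e, g a b c d e := by
  rw [sum_cons]
  refine sum_congr rfl fun a _ => ?_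
  rw [sum_cons]
  refine sum_congr rfl fun b _ => ?_
  rw [sum_cons]
  refine sum_congr rfl fun c _ => ?_
  rw [sum_cons]
  refine sum_congr rfl fun d _ => ?_
  rw [sum_cons]
  refine sum_congr rfl fun e _ => ?_
  rw [Fintype.sum_unique]
  rfl

theorem NF_edge (hE : Sy E) : NF E 32 = (Fintype.card V) ^ 2 * ∑ a, ∑ b, ∑ c, E a b c := by
  have h1 : NF E 32 = ∑ x : Fin 5 → V, E (x 0) (x 2) (x 4) := by
    unfold NF S5
    refine sum_congr rfl fun x _ => ?_
    unfold TE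
    rw [show (32 : ℕ) = cd5 0 0 0 0 0 1 0 0 0 0 from rfl,
      sb_iff (Or.inl rfl) (Or.inl rfl) (Or.inl rfl) (Or.inl rfl) (Or.inl rfl) (Or.inr rfl)
        (Or.inl rfl) (Or.inl rfl) (Or.inl rfl) (Or.inl rfl) (hE.b _ _ _) (hE.b _ _ _) (hE.b _ _ _) (hE.b _ _ _)
        (hE.b _ _ _) (hE.b _ _ _) (hE.b _ _ _) (hE.b _ _ _) (hE.b _ _ _) (hE.b _ _ _)]
    rcases hE.b (x 0) (x 2) (x 4) with h | h <;> simp [h]
  rw [h1, sum5 (fun a _ c _ e => E a c e)]
  simp only [sum_const, card_univ, smul_eq_mul, mul_sum]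
  refine sum_congr rfl fun a _ => sum_congr rfl fun c _ => sum_congr rfl fun e _ => ?_
  ring

theorem orb_sum (hE : Sy E) (hK : NoK5 E) (r L n b e : ℕ)
    (hO : chkO r L n = true) {t0 t1 : ℕ → ℕ} (hW : chkW t0 t1 L n b e = true) :
    720 * (n * NF E r) ≤ b * S5 t1 E + e * S5 t0 E := by
  have h1 : ∑ k ∈ range n, NF E (el L k) = n * NF E r := by
    rw [sum_congr rfl fun k hk => chkO_NF hE hO (mem_range.mp hk), sum_const, card_range,
      smul_eq_mul]
  rw [← h1]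
  unfold NF S5
  rw [sum_comm, mul_sum, mul_sum, mul_sum, ← sum_add_distrib]
  exact sum_le_sum fun x _ => chkW_at hE hK hW (x 0) (x 1) (x 2) (x 3) (x 4)

theorem arith1 (b e n col M N P Q S0 S1 : ℤ) (hn : 0 ≤ n) (hb : 0 ≤ b)
    (h0 : 32 * N ≤ col * P) (h2 : 720 * (n * N) ≤ b * S1 + e * S0)
    (h3 : 2 * (S0 + 10 * 5 * Q) ≤ 300 * P) (h4 : 2 * S1 ≤ 2025 * P) (hM : 6 * M ≤ Q)
    (hcol : 2025 * b + 225 * e = 45 * n * col) (he : 0 < e) (hle : n ≤ 5 * e) :
    8 * M + 96 * N ≤ (1 + 3 * col) * P := by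
  have h6 : 0 ≤ (5 * e - n) * (col * P - 32 * N) := mul_nonneg (by linarith) (by linarith)
  have h7 : e * (2 * (S0 + 10 * 5 * Q)) ≤ e * (300 * P) := mul_le_mul_of_nonneg_left h3 he.le
  have h8 : b * (2 * S1) ≤ b * (2025 * P) := mul_le_mul_of_nonneg_left h4 hb
  have h9 : e * (6 * M) ≤ e * Q := mul_le_mul_of_nonneg_left hM he.le
  have hc : (2025 * b + 225 * e) * P = 45 * n * col * P := by rw [hcol]
  have h10 : (75 * e) * (8 * M + 96 * N) ≤ (75 * e) * ((1 + 3 * col) * P) := by linarith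
  exact le_of_mul_le_mul_left h10 (by linarith)

theorem repC (hE : Sy E) (hK : NoK5 E) (r L n b e col : ℕ)
    (hO : chkO r L n = true) (hW : chkW C0.tab C1.tab L n b e = true) (hn : 0 < n)
    (hcol : 2025 * b + 225 * e = 45 * n * col) (he : 0 < e) (hle : n ≤ 5 * e) (M : ℕ)
    (hM : 6 * M ≤ NF E 32) :
    8 * M + 96 * NF E r ≤ (1 + 3 * col) * (Fintype.card V) ^ 5 := by
  have h2 := orb_sum hE hK r L n b e hO hW
  have h0 := repB hE hK r L n b e col hO hW hn hcol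
  have h3 := C2.main hE hK
  rw [edge_tab hE hK chkE2] at h3
  have h4 := C1.main hE hK
  have := arith1 (b : ℤ) e n col M (NF E r) ((Fintype.card V) ^ 5) (NF E 32) (S5 C0.tab E)
    (S5 C1.tab E) (by positivity) (by positivity) (by exact_mod_cast h0) (by exact_mod_cast h2)
    (by exact_mod_cast h3) (by exact_mod_cast h4) (by exact_mod_cast hM) (by exact_mod_cast hcol)
    (by exact_mod_cast he) (by exact_mod_cast hle)
  exact_mod_cast this

theorem arith2 (M N P Q S1 : ℤ) (h0 : 32 * N ≤ 18 * P) (h2 : 720 * (10 * N) ≤ 4 * S1)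
    (h3 : 2 * (S1 + 10 * 3 * Q) ≤ 2070 * P) (hM : 6 * M ≤ Q) :
    8 * M + 96 * N ≤ (1 + 3 * 18) * P := by
  linarith

theorem repD (hE : Sy E) (hK : NoK5 E) (L : ℕ)
    (hO : chkO 266 L 10 = true) (hW : chkW C0.tab C1.tab L 10 4 0 = true) (M : ℕ)
    (hM : 6 * M ≤ NF E 32) :
    8 * M + 96 * NF E 266 ≤ (1 + 3 * 18) * (Fintype.card V) ^ 5 := by
  have h2 := orb_sum hE hK 266 L 10 4 0 hO hW
  rw [zero_mul, add_zero] at h2
  have h0 := repB hE hK 266 L 10 4 0 18 hO hW (by norm_num) (by norm_num)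
  have h3 := C3.main hE hK
  rw [edge_tab hE hK chkE3] at h3
  have := arith2 (M : ℤ) (NF E 266) ((Fintype.card V) ^ 5) (NF E 32)
    (S5 C1.tab E) (by exact_mod_cast h0) (by exact_mod_cast h2)
    (by exact_mod_cast h3) (by exact_mod_cast hM)
  exact_mod_cast this

end

theorem repT144 {V : Type} [Fintype V] {E : V → V → V → ℕ} (hE : Sy E) (hK : NoK5 E) (M : ℕ)
    (hM : 6 * M ≤ NF E 32) : 8 * M + 96 * NF E 144 ≤ (1 + 3 * NF nm 144) * (Fintype.card V) ^ 5 := by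
  rw [col144]
  exact repC hE hK _ _ _ _ _ _ O144 W144 (by norm_num) (by norm_num) (by norm_num) (by norm_num) M hM

theorem repT81 {V : Type} [Fintype V] {E : V → V → V → ℕ} (hE : Sy E) (hK : NoK5 E) (M : ℕ)
    (hM : 6 * M ≤ NF E 32) : 8 * M + 96 * NF E 81 ≤ (1 + 3 * NF nm 81) * (Fintype.card V) ^ 5 := by
  rw [col81]
  exact repC hE hK _ _ _ _ _ _ O81 W81 (by norm_num) (by norm_num) (by norm_num) (by norm_num) M hM

theorem repT402 {V : Type} [Fintype V] {E : V → V → V → ℕ} (hE : Sy E) (hK : NoK5 E) (M : ℕ)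
    (hM : 6 * M ≤ NF E 32) : 8 * M + 96 * NF E 402 ≤ (1 + 3 * NF nm 402) * (Fintype.card V) ^ 5 := by
  rw [col402]
  exact repC hE hK _ _ _ _ _ _ O402 W402 (by norm_num) (by norm_num) (by norm_num) (by norm_num) M hM

theorem repT266 {V : Type} [Fintype V] {E : V → V → V → ℕ} (hE : Sy E) (hK : NoK5 E) (M : ℕ)
    (hM : 6 * M ≤ NF E 32) : 8 * M + 96 * NF E 266 ≤ (1 + 3 * NF nm 266) * (Fintype.card V) ^ 5 := by
  rw [col266]
  exact repD hE hK _ O266 W266 M hM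

theorem repT76 {V : Type} [Fintype V] {E : V → V → V → ℕ} (hE : Sy E) (hK : NoK5 E) (M : ℕ)
    (hM : 6 * M ≤ NF E 32) : 8 * M + 96 * NF E 76 ≤ (1 + 3 * NF nm 76) * (Fintype.card V) ^ 5 := by
  rw [col76]
  exact repC hE hK _ _ _ _ _ _ O76 W76 (by norm_num) (by norm_num) (by norm_num) (by norm_num) M hM

theorem repT89 {V : Type} [Fintype V] {E : V → V → V → ℕ} (hE : Sy E) (hK : NoK5 E) (M : ℕ)
    (hM : 6 * M ≤ NF E 32) : 8 * M + 96 * NF E 89 ≤ (1 + 3 * NF nm 89) * (Fintype.card V) ^ 5 := by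
  rw [col89]
  exact repC hE hK _ _ _ _ _ _ O89 W89 (by norm_num) (by norm_num) (by norm_num) (by norm_num) M hM

theorem repT209 {V : Type} [Fintype V] {E : V → V → V → ℕ} (hE : Sy E) (hK : NoK5 E) (M : ℕ)
    (hM : 6 * M ≤ NF E 32) : 8 * M + 96 * NF E 209 ≤ (1 + 3 * NF nm 209) * (Fintype.card V) ^ 5 := by
  rw [col209]
  exact repC hE hK _ _ _ _ _ _ O209 W209 (by norm_num) (by norm_num) (by norm_num) (by norm_num) M hM

theorem repT410 {V : Type} [Fintype V] {E : V → V → V → ℕ} (hE : Sy E) (hK : NoK5 E) (M : ℕ)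
    (hM : 6 * M ≤ NF E 32) : 8 * M + 96 * NF E 410 ≤ (1 + 3 * NF nm 410) * (Fintype.card V) ^ 5 := by
  rw [col410]
  exact repC hE hK _ _ _ _ _ _ O410 W410 (by norm_num) (by norm_num) (by norm_num) (by norm_num) M hM

theorem repT553 {V : Type} [Fintype V] {E : V → V → V → ℕ} (hE : Sy E) (hK : NoK5 E) (M : ℕ)
    (hM : 6 * M ≤ NF E 32) : 8 * M + 96 * NF E 553 ≤ (1 + 3 * NF nm 553) * (Fintype.card V) ^ 5 := by
  rw [col553]
  exact repC hE hK _ _ _ _ _ _ O553 W553 (by norm_num) (by norm_num) (by norm_num) (by norm_num) M hM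

theorem repT589 {V : Type} [Fintype V] {E : V → V → V → ℕ} (hE : Sy E) (hK : NoK5 E) (M : ℕ)
    (hM : 6 * M ≤ NF E 32) : 8 * M + 96 * NF E 589 ≤ (1 + 3 * NF nm 589) * (Fintype.card V) ^ 5 := by
  rw [col589]
  exact repC hE hK _ _ _ _ _ _ O589 W589 (by norm_num) (by norm_num) (by norm_num) (by norm_num) M hM

theorem repT244 {V : Type} [Fintype V] {E : V → V → V → ℕ} (hE : Sy E) (hK : NoK5 E) (M : ℕ)
    (hM : 6 * M ≤ NF E 32) : 8 * M + 96 * NF E 244 ≤ (1 + 3 * NF nm 244) * (Fintype.card V) ^ 5 := by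
  rw [col244]
  exact repC hE hK _ _ _ _ _ _ O244 W244 (by norm_num) (by norm_num) (by norm_num) (by norm_num) M hM

theorem repT355 {V : Type} [Fintype V] {E : V → V → V → ℕ} (hE : Sy E) (hK : NoK5 E) (M : ℕ)
    (hM : 6 * M ≤ NF E 32) : 8 * M + 96 * NF E 355 ≤ (1 + 3 * NF nm 355) * (Fintype.card V) ^ 5 := by
  rw [col355]
  exact repC hE hK _ _ _ _ _ _ O355 W355 (by norm_num) (by norm_num) (by norm_num) (by norm_num) M hM

theorem repT371 {V : Type} [Fintype V] {E : V → V → V → ℕ} (hE : Sy E) (hK : NoK5 E) (M : ℕ)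
    (hM : 6 * M ≤ NF E 32) : 8 * M + 96 * NF E 371 ≤ (1 + 3 * NF nm 371) * (Fintype.card V) ^ 5 := by
  rw [col371]
  exact repC hE hK _ _ _ _ _ _ O371 W371 (by norm_num) (by norm_num) (by norm_num) (by norm_num) M hM

theorem repT725 {V : Type} [Fintype V] {E : V → V → V → ℕ} (hE : Sy E) (hK : NoK5 E) (M : ℕ)
    (hM : 6 * M ≤ NF E 32) : 8 * M + 96 * NF E 725 ≤ (1 + 3 * NF nm 725) * (Fintype.card V) ^ 5 := by
  rw [col725]
  exact repC hE hK _ _ _ _ _ _ O725 W725 (by norm_num) (by norm_num) (by norm_num) (by norm_num) M hM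

theorem repT757 {V : Type} [Fintype V] {E : V → V → V → ℕ} (hE : Sy E) (hK : NoK5 E) (M : ℕ)
    (hM : 6 * M ≤ NF E 32) : 8 * M + 96 * NF E 757 ≤ (1 + 3 * NF nm 757) * (Fintype.card V) ^ 5 := by
  rw [col757]
  exact repC hE hK _ _ _ _ _ _ O757 W757 (by norm_num) (by norm_num) (by norm_num) (by norm_num) M hM

theorem repT621 {V : Type} [Fintype V] {E : V → V → V → ℕ} (hE : Sy E) (hK : NoK5 E) (M : ℕ)
    (hM : 6 * M ≤ NF E 32) : 8 * M + 96 * NF E 621 ≤ (1 + 3 * NF nm 621) * (Fintype.card V) ^ 5 := by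
  rw [col621]
  exact repC hE hK _ _ _ _ _ _ O621 W621 (by norm_num) (by norm_num) (by norm_num) (by norm_num) M hM

theorem repT217 {V : Type} [Fintype V] {E : V → V → V → ℕ} (hE : Sy E) (hK : NoK5 E) (M : ℕ)
    (hM : 6 * M ≤ NF E 32) : 8 * M + 96 * NF E 217 ≤ (1 + 3 * NF nm 217) * (Fintype.card V) ^ 5 := by
  rw [col217]
  exact repC hE hK _ _ _ _ _ _ O217 W217 (by norm_num) (by norm_num) (by norm_num) (by norm_num) M hM

theorem repT363 {V : Type} [Fintype V] {E : V → V → V → ℕ} (hE : Sy E) (hK : NoK5 E) (M : ℕ)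
    (hM : 6 * M ≤ NF E 32) : 8 * M + 96 * NF E 363 ≤ (1 + 3 * NF nm 363) * (Fintype.card V) ^ 5 := by
  rw [col363]
  exact repC hE hK _ _ _ _ _ _ O363 W363 (by norm_num) (by norm_num) (by norm_num) (by norm_num) M hM

theorem repT379 {V : Type} [Fintype V] {E : V → V → V → ℕ} (hE : Sy E) (hK : NoK5 E) (M : ℕ)
    (hM : 6 * M ≤ NF E 32) : 8 * M + 96 * NF E 379 ≤ (1 + 3 * NF nm 379) * (Fintype.card V) ^ 5 := by
  rw [col379]
  exact repC hE hK _ _ _ _ _ _ O379 W379 (by norm_num) (by norm_num) (by norm_num) (by norm_num) M hM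

theorem repT470 {V : Type} [Fintype V] {E : V → V → V → ℕ} (hE : Sy E) (hK : NoK5 E) (M : ℕ)
    (hM : 6 * M ≤ NF E 32) : 8 * M + 96 * NF E 470 ≤ (1 + 3 * NF nm 470) * (Fintype.card V) ^ 5 := by
  rw [col470]
  exact repC hE hK _ _ _ _ _ _ O470 W470 (by norm_num) (by norm_num) (by norm_num) (by norm_num) M hM

theorem repT252 {V : Type} [Fintype V] {E : V → V → V → ℕ} (hE : Sy E) (hK : NoK5 E) (M : ℕ)
    (hM : 6 * M ≤ NF E 32) : 8 * M + 96 * NF E 252 ≤ (1 + 3 * NF nm 252) * (Fintype.card V) ^ 5 := by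
  rw [col252]
  exact repC hE hK _ _ _ _ _ _ O252 W252 (by norm_num) (by norm_num) (by norm_num) (by norm_num) M hM

theorem repT478 {V : Type} [Fintype V] {E : V → V → V → ℕ} (hE : Sy E) (hK : NoK5 E) (M : ℕ)
    (hM : 6 * M ≤ NF E 32) : 8 * M + 96 * NF E 478 ≤ (1 + 3 * NF nm 478) * (Fintype.card V) ^ 5 := by
  rw [col478]
  exact repC hE hK _ _ _ _ _ _ O478 W478 (by norm_num) (by norm_num) (by norm_num) (by norm_num) M hM

theorem repT733 {V : Type} [Fintype V] {E : V → V → V → ℕ} (hE : Sy E) (hK : NoK5 E) (M : ℕ)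
    (hM : 6 * M ≤ NF E 32) : 8 * M + 96 * NF E 733 ≤ (1 + 3 * NF nm 733) * (Fintype.card V) ^ 5 := by
  rw [col733]
  exact repC hE hK _ _ _ _ _ _ O733 W733 (by norm_num) (by norm_num) (by norm_num) (by norm_num) M hM

theorem repT765 {V : Type} [Fintype V] {E : V → V → V → ℕ} (hE : Sy E) (hK : NoK5 E) (M : ℕ)
    (hM : 6 * M ≤ NF E 32) : 8 * M + 96 * NF E 765 ≤ (1 + 3 * NF nm 765) * (Fintype.card V) ^ 5 := by
  rw [col765]
  exact repC hE hK _ _ _ _ _ _ O765 W765 (by norm_num) (by norm_num) (by norm_num) (by norm_num) M hM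

theorem repT955 {V : Type} [Fintype V] {E : V → V → V → ℕ} (hE : Sy E) (hK : NoK5 E) (M : ℕ)
    (hM : 6 * M ≤ NF E 32) : 8 * M + 96 * NF E 955 ≤ (1 + 3 * NF nm 955) * (Fintype.card V) ^ 5 := by
  rw [col955]
  exact repC hE hK _ _ _ _ _ _ O955 W955 (by norm_num) (by norm_num) (by norm_num) (by norm_num) M hM

theorem repT991 {V : Type} [Fintype V] {E : V → V → V → ℕ} (hE : Sy E) (hK : NoK5 E) (M : ℕ)
    (hM : 6 * M ≤ NF E 32) : 8 * M + 96 * NF E 991 ≤ (1 + 3 * NF nm 991) * (Fintype.card V) ^ 5 := by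
  rw [col991]
  exact repC hE hK _ _ _ _ _ _ O991 W991 (by norm_num) (by norm_num) (by norm_num) (by norm_num) M hM

end Pool.Agent.R85.GT
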