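import Pool.Agent.R85.GT.Hom

/-! From sets of triples on five vertices to codes. -/

set_option autoImplicit false
set_option maxRecDepth 100000
set_option maxHeartbeats 4000000
open Finset

namespace Pool.Agent.R85.GT
open Pool.Agent.H122R2.N6 Pool.Agent.H37R3.Pen Pool.Agent.H37R3.K5 Pool.Agent.Y580.FL

/-- the triples of the five vertices, in the order of the code -/
theorem ten (e : Finset (Fin 5)) (h : e.card = 3) : e = {0,1,2} ∨ e = {0,1,3} ∨ e = {0,2,3} ∨
    e = {1,2,3} ∨ e = {0,1,4} ∨ e = {0,2,4} ∨ e = {1,2,4} ∨ e = {0,3,4} ∨ e = {1,3,4} ∨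
    e = {2,3,4} := by
  revert e
  decide +kernel

/-- indicator of a triple -/
def fb (F : Finset (Finset (Fin 5))) (t : Finset (Fin 5)) : ℕ := if t ∈ F then 1 else 0

theorem fb_Bt (F : Finset (Finset (Fin 5))) (t : Finset (Fin 5)) : Bt (fb F t) := by
  unfold fb Bt; split_ifs <;> simp

/-- the code of a set of triples -/
def code (F : Finset (Finset (Fin 5))) : ℕ :=
  cd5 (fb F {0,1,2}) (fb F {0,1,3}) (fb F {0,2,3}) (fb F {1,2,3}) (fb F {0,1,4}) (fb F {0,2,4})
    (fb F {1,2,4}) (fb F {0,3,4}) (fb F {1,3,4}) (fb F {2,3,4})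

theorem fb_le (F : Finset (Finset (Fin 5))) (t : Finset (Fin 5)) (Q : Prop) [Decidable Q] :
    fb F t ≤ (if Q then 1 else 0) ↔ (t ∈ F → Q) := by
  unfold fb
  by_cases h1 : t ∈ F <;> by_cases h2 : Q <;> simp [h1, h2]

theorem all_iff {F : Finset (Finset (Fin 5))} (h3 : ∀ e ∈ F, e.card = 3)
    (Q : Finset (Fin 5) → Prop) [DecidablePred Q] :
    (∀ e ∈ F, Q e) ↔ (fb F {0,1,2} ≤ (if Q {0,1,2} then 1 else 0) ∧
      fb F {0,1,3} ≤ (if Q {0,1,3} then 1 else 0) ∧ fb F {0,2,3} ≤ (if Q {0,2,3} then 1 else 0) ∧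
      fb F {1,2,3} ≤ (if Q {1,2,3} then 1 else 0) ∧ fb F {0,1,4} ≤ (if Q {0,1,4} then 1 else 0) ∧
      fb F {0,2,4} ≤ (if Q {0,2,4} then 1 else 0) ∧ fb F {1,2,4} ≤ (if Q {1,2,4} then 1 else 0) ∧
      fb F {0,3,4} ≤ (if Q {0,3,4} then 1 else 0) ∧ fb F {1,3,4} ≤ (if Q {1,3,4} then 1 else 0) ∧
      fb F {2,3,4} ≤ (if Q {2,3,4} then 1 else 0)) := by
  simp only [fb_le]
  constructor
  · intro h
    exact ⟨h _, h _, h _, h _, h _, h _, h _, h _, h _, h _⟩
  · rintro ⟨a0, a1, a2, a3, a4, a5, a6, a7, a8, a9⟩ e he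
    rcases ten e (h3 e he) with h | h | h | h | h | h | h | h | h | h <;> subst h
    exacts [a0 he, a1 he, a2 he, a3 he, a4 he, a5 he, a6 he, a7 he, a8 he, a9 he]

theorem NF_eq_card {V : Type} [Fintype V] {E : V → V → V → ℕ} (hE : Sy E)
    {F : Finset (Finset (Fin 5))} (h3 : ∀ e ∈ F, e.card = 3)
    (Q : (Fin 5 → V) → Finset (Fin 5) → Prop) [∀ x, DecidablePred (Q x)]
    (h012 : ∀ x, E (x 0) (x 1) (x 2) = if Q x {0,1,2} then 1 else 0)
    (h013 : ∀ x, E (x 0) (x 1) (x 3) = if Q x {0,1,3} then 1 else 0)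
    (h023 : ∀ x, E (x 0) (x 2) (x 3) = if Q x {0,2,3} then 1 else 0)
    (h123 : ∀ x, E (x 1) (x 2) (x 3) = if Q x {1,2,3} then 1 else 0)
    (h014 : ∀ x, E (x 0) (x 1) (x 4) = if Q x {0,1,4} then 1 else 0)
    (h024 : ∀ x, E (x 0) (x 2) (x 4) = if Q x {0,2,4} then 1 else 0)
    (h124 : ∀ x, E (x 1) (x 2) (x 4) = if Q x {1,2,4} then 1 else 0)
    (h034 : ∀ x, E (x 0) (x 3) (x 4) = if Q x {0,3,4} then 1 else 0)
    (h134 : ∀ x, E (x 1) (x 3) (x 4) = if Q x {1,3,4} then 1 else 0)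
    (h234 : ∀ x, E (x 2) (x 3) (x 4) = if Q x {2,3,4} then 1 else 0) :
    NF E (code F) = (univ.filter fun x : Fin 5 → V => ∀ e ∈ F, Q x e).card := by
  rw [card_filter]
  unfold NF S5
  refine sum_congr rfl fun x _ => ?_
  unfold TE code
  rw [sb_iff (fb_Bt _ _) (fb_Bt _ _) (fb_Bt _ _) (fb_Bt _ _) (fb_Bt _ _) (fb_Bt _ _) (fb_Bt _ _)
    (fb_Bt _ _) (fb_Bt _ _) (fb_Bt _ _) (hE.b _ _ _) (hE.b _ _ _) (hE.b _ _ _) (hE.b _ _ _)
    (hE.b _ _ _) (hE.b _ _ _) (hE.b _ _ _) (hE.b _ _ _) (hE.b _ _ _) (hE.b _ _ _),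
    h012, h013, h023, h123, h014, h024, h124, h034, h134, h234]
  exact if_congr (all_iff h3 (Q x)).symm rfl rfl

/-- the action of a permutation of the vertices -/
def pm (s : Equiv.Perm (Fin 5)) (F : Finset (Finset (Fin 5))) : Finset (Finset (Fin 5)) :=
  F.image fun e => e.image s

theorem mem_pm (s : Equiv.Perm (Fin 5)) (F : Finset (Finset (Fin 5))) (t : Finset (Fin 5)) :
    t ∈ pm s F ↔ t.image s.symm ∈ F := by
  unfold pm
  rw [mem_image]
  constructor
  · rintro ⟨e, he, rfl⟩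
    rw [image_image]
    have : (⇑s.symm ∘ ⇑s) = id := by ext i; simp
    rw [this, image_id]
    exact he
  · intro h
    refine ⟨_, h, ?_⟩
    rw [image_image]
    have : (⇑s ∘ ⇑s.symm) = id := by ext i; simp
    rw [this, image_id]

theorem pm_pm (s u : Equiv.Perm (Fin 5)) (F : Finset (Finset (Fin 5))) :
    pm s (pm u F) = pm (u.trans s) F := by
  ext t
  rw [mem_pm, mem_pm, mem_pm, image_image]
  rfl

theorem pm_refl (F : Finset (Finset (Fin 5))) : pm (Equiv.refl _) F = F := by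
  ext t
  rw [mem_pm]
  simp

theorem pm_card {s : Equiv.Perm (Fin 5)} {F : Finset (Finset (Fin 5))} (h3 : ∀ e ∈ F, e.card = 3) :
    ∀ e ∈ pm s F, e.card = 3 := by
  intro e he
  unfold pm at he
  obtain ⟨a, ha, rfl⟩ := mem_image.mp he
  rw [card_image_of_injective _ s.injective]
  exact h3 a ha

theorem fb_pm (s : Equiv.Perm (Fin 5)) (F : Finset (Finset (Fin 5))) (t : Finset (Fin 5)) :
    fb (pm s F) t = fb F (t.image s.symm) := by
  unfold fb
  exact if_congr (mem_pm s F t) rfl rfl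

theorem ends_pm (n : ℕ) : ∀ F : Finset (Finset (Fin 5)), ∃ s : Equiv.Perm (Fin 5),
    code (pm s F) = ends n (fb F {0,1,2}) (fb F {0,1,3}) (fb F {0,2,3}) (fb F {1,2,3}) (fb F {0,1,4})
      (fb F {0,2,4}) (fb F {1,2,4}) (fb F {0,3,4}) (fb F {1,3,4}) (fb F {2,3,4}) := by
  induction n with
  | zero => intro F; exact ⟨Equiv.refl _, by rw [pm_refl]; rfl⟩
  | succ n ih =>
    intro F
    change ∃ s : Equiv.Perm (Fin 5), code (pm s F) =
      cond (Nat.beq (tg5 (fb F {0,1,2}) (fb F {0,1,3}) (fb F {0,2,3}) (fb F {1,2,3}) (fb F {0,1,4}) (fb F {0,2,4}) (fb F {1,2,4}) (fb F {0,3,4}) (fb F {1,3,4}) (fb F {2,3,4})) 0) (ends n (fb F {0,1,2}) (fb F {0,1,3}) (fb F {1,2,3}) (fb F {0,2,3}) (fb F {0,1,4}) (fb F {1,2,4}) (fb F {0,2,4}) (fb F {1,3,4}) (fb F {0,3,4}) (fb F {2,3,4}))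
      (cond (Nat.beq (tg5 (fb F {0,1,2}) (fb F {0,1,3}) (fb F {0,2,3}) (fb F {1,2,3}) (fb F {0,1,4}) (fb F {0,2,4}) (fb F {1,2,4}) (fb F {0,3,4}) (fb F {1,3,4}) (fb F {2,3,4})) 1) (ends n (fb F {0,1,2}) (fb F {0,2,3}) (fb F {0,1,3}) (fb F {1,2,3}) (fb F {0,2,4}) (fb F {0,1,4}) (fb F {1,2,4}) (fb F {0,3,4}) (fb F {2,3,4}) (fb F {1,3,4}))
      (cond (Nat.beq (tg5 (fb F {0,1,2}) (fb F {0,1,3}) (fb F {0,2,3}) (fb F {1,2,3}) (fb F {0,1,4}) (fb F {0,2,4}) (fb F {1,2,4}) (fb F {0,3,4}) (fb F {1,3,4}) (fb F {2,3,4})) 2) (ends n (fb F {0,1,3}) (fb F {0,1,2}) (fb F {0,2,3}) (fb F {1,2,3}) (fb F {0,1,4}) (fb F {0,3,4}) (fb F {1,3,4}) (fb F {0,2,4}) (fb F {1,2,4}) (fb F {2,3,4}))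
      (cond (Nat.beq (tg5 (fb F {0,1,2}) (fb F {0,1,3}) (fb F {0,2,3}) (fb F {1,2,3}) (fb F {0,1,4}) (fb F {0,2,4}) (fb F {1,2,4}) (fb F {0,3,4}) (fb F {1,3,4}) (fb F {2,3,4})) 3) (ends n (fb F {0,1,2}) (fb F {0,1,4}) (fb F {0,2,4}) (fb F {1,2,4}) (fb F {0,1,3}) (fb F {0,2,3}) (fb F {1,2,3}) (fb F {0,3,4}) (fb F {1,3,4}) (fb F {2,3,4}))
      (code F))))
    generalize hT : tg5 (fb F {0,1,2}) (fb F {0,1,3}) (fb F {0,2,3}) (fb F {1,2,3}) (fb F {0,1,4}) (fb F {0,2,4}) (fb F {1,2,4}) (fb F {0,3,4}) (fb F {1,3,4}) (fb F {2,3,4}) = T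
    clear hT
    cases Nat.beq T 0 with
    | true =>
      simp only [cond_true, cond_false]
      obtain ⟨s, hs⟩ := ih (pm (Equiv.swap 0 1) F)
      refine ⟨(Equiv.swap 0 1).trans s, ?_⟩
      rw [pm_pm] at hs
      rw [hs]
      simp only [fb_pm]
      rw [show ({0,1,2} : Finset (Fin 5)).image (Equiv.swap 0 1).symm = {0,1,2} by decide +kernel,
        show ({0,1,3} : Finset (Fin 5)).image (Equiv.swap 0 1).symm = {0,1,3} by decide +kernel,
        show ({0,2,3} : Finset (Fin 5)).image (Equiv.swap 0 1).symm = {1,2,3} by decide +kernel,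
        show ({1,2,3} : Finset (Fin 5)).image (Equiv.swap 0 1).symm = {0,2,3} by decide +kernel,
        show ({0,1,4} : Finset (Fin 5)).image (Equiv.swap 0 1).symm = {0,1,4} by decide +kernel,
        show ({0,2,4} : Finset (Fin 5)).image (Equiv.swap 0 1).symm = {1,2,4} by decide +kernel,
        show ({1,2,4} : Finset (Fin 5)).image (Equiv.swap 0 1).symm = {0,2,4} by decide +kernel,
        show ({0,3,4} : Finset (Fin 5)).image (Equiv.swap 0 1).symm = {1,3,4} by decide +kernel,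
        show ({1,3,4} : Finset (Fin 5)).image (Equiv.swap 0 1).symm = {0,3,4} by decide +kernel,
        show ({2,3,4} : Finset (Fin 5)).image (Equiv.swap 0 1).symm = {2,3,4} by decide +kernel]
    | false =>
    cases Nat.beq T 1 with
    | true =>
      simp only [cond_true, cond_false]
      obtain ⟨s, hs⟩ := ih (pm (Equiv.swap 1 2) F)
      refine ⟨(Equiv.swap 1 2).trans s, ?_⟩
      rw [pm_pm] at hs
      rw [hs]
      simp only [fb_pm]
      rw [show ({0,1,2} : Finset (Fin 5)).image (Equiv.swap 1 2).symm = {0,1,2} by decide +kernel,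
        show ({0,1,3} : Finset (Fin 5)).image (Equiv.swap 1 2).symm = {0,2,3} by decide +kernel,
        show ({0,2,3} : Finset (Fin 5)).image (Equiv.swap 1 2).symm = {0,1,3} by decide +kernel,
        show ({1,2,3} : Finset (Fin 5)).image (Equiv.swap 1 2).symm = {1,2,3} by decide +kernel,
        show ({0,1,4} : Finset (Fin 5)).image (Equiv.swap 1 2).symm = {0,2,4} by decide +kernel,
        show ({0,2,4} : Finset (Fin 5)).image (Equiv.swap 1 2).symm = {0,1,4} by decide +kernel,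
        show ({1,2,4} : Finset (Fin 5)).image (Equiv.swap 1 2).symm = {1,2,4} by decide +kernel,
        show ({0,3,4} : Finset (Fin 5)).image (Equiv.swap 1 2).symm = {0,3,4} by decide +kernel,
        show ({1,3,4} : Finset (Fin 5)).image (Equiv.swap 1 2).symm = {2,3,4} by decide +kernel,
        show ({2,3,4} : Finset (Fin 5)).image (Equiv.swap 1 2).symm = {1,3,4} by decide +kernel]
    | false =>
    cases Nat.beq T 2 with
    | true =>
      simp only [cond_true, cond_false]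
      obtain ⟨s, hs⟩ := ih (pm (Equiv.swap 2 3) F)
      refine ⟨(Equiv.swap 2 3).trans s, ?_⟩
      rw [pm_pm] at hs
      rw [hs]
      simp only [fb_pm]
      rw [show ({0,1,2} : Finset (Fin 5)).image (Equiv.swap 2 3).symm = {0,1,3} by decide +kernel,
        show ({0,1,3} : Finset (Fin 5)).image (Equiv.swap 2 3).symm = {0,1,2} by decide +kernel,
        show ({0,2,3} : Finset (Fin 5)).image (Equiv.swap 2 3).symm = {0,2,3} by decide +kernel,
        show ({1,2,3} : Finset (Fin 5)).image (Equiv.swap 2 3).symm = {1,2,3} by decide +kernel,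
        show ({0,1,4} : Finset (Fin 5)).image (Equiv.swap 2 3).symm = {0,1,4} by decide +kernel,
        show ({0,2,4} : Finset (Fin 5)).image (Equiv.swap 2 3).symm = {0,3,4} by decide +kernel,
        show ({1,2,4} : Finset (Fin 5)).image (Equiv.swap 2 3).symm = {1,3,4} by decide +kernel,
        show ({0,3,4} : Finset (Fin 5)).image (Equiv.swap 2 3).symm = {0,2,4} by decide +kernel,
        show ({1,3,4} : Finset (Fin 5)).image (Equiv.swap 2 3).symm = {1,2,4} by decide +kernel,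
        show ({2,3,4} : Finset (Fin 5)).image (Equiv.swap 2 3).symm = {2,3,4} by decide +kernel]
    | false =>
    cases Nat.beq T 3 with
    | true =>
      simp only [cond_true, cond_false]
      obtain ⟨s, hs⟩ := ih (pm (Equiv.swap 3 4) F)
      refine ⟨(Equiv.swap 3 4).trans s, ?_⟩
      rw [pm_pm] at hs
      rw [hs]
      simp only [fb_pm]
      rw [show ({0,1,2} : Finset (Fin 5)).image (Equiv.swap 3 4).symm = {0,1,2} by decide +kernel,
        show ({0,1,3} : Finset (Fin 5)).image (Equiv.swap 3 4).symm = {0,1,4} by decide +kernel,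
        show ({0,2,3} : Finset (Fin 5)).image (Equiv.swap 3 4).symm = {0,2,4} by decide +kernel,
        show ({1,2,3} : Finset (Fin 5)).image (Equiv.swap 3 4).symm = {1,2,4} by decide +kernel,
        show ({0,1,4} : Finset (Fin 5)).image (Equiv.swap 3 4).symm = {0,1,3} by decide +kernel,
        show ({0,2,4} : Finset (Fin 5)).image (Equiv.swap 3 4).symm = {0,2,3} by decide +kernel,
        show ({1,2,4} : Finset (Fin 5)).image (Equiv.swap 3 4).symm = {1,2,3} by decide +kernel,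
        show ({0,3,4} : Finset (Fin 5)).image (Equiv.swap 3 4).symm = {0,3,4} by decide +kernel,
        show ({1,3,4} : Finset (Fin 5)).image (Equiv.swap 3 4).symm = {1,3,4} by decide +kernel,
        show ({2,3,4} : Finset (Fin 5)).image (Equiv.swap 3 4).symm = {2,3,4} by decide +kernel]
    | false =>
      simp only [cond_false]
      exact ⟨Equiv.refl _, by rw [pm_refl]⟩

theorem step_inj {a b m n : ℕ} (ha : Bt a) (hb : Bt b)
    (h : Nat.add a (Nat.mul 2 m) = Nat.add b (Nat.mul 2 n)) : a = b ∧ m = n := by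
  simp only [Nat.add_eq, Nat.mul_eq] at h
  unfold Bt at ha hb
  omega

/-- a set of triples is determined by its code -/
theorem code_inj {F G : Finset (Finset (Fin 5))} (hF : ∀ e ∈ F, e.card = 3)
    (hG : ∀ e ∈ G, e.card = 3) (h : code F = code G) : F = G := by
  unfold code cd5 at h
  obtain ⟨a0, h⟩ := step_inj (fb_Bt _ _) (fb_Bt _ _) h
  obtain ⟨a1, h⟩ := step_inj (fb_Bt _ _) (fb_Bt _ _) h
  obtain ⟨a2, h⟩ := step_inj (fb_Bt _ _) (fb_Bt _ _) h
  obtain ⟨a3, h⟩ := step_inj (fb_Bt _ _) (fb_Bt _ _) h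
  obtain ⟨a4, h⟩ := step_inj (fb_Bt _ _) (fb_Bt _ _) h
  obtain ⟨a5, h⟩ := step_inj (fb_Bt _ _) (fb_Bt _ _) h
  obtain ⟨a6, h⟩ := step_inj (fb_Bt _ _) (fb_Bt _ _) h
  obtain ⟨a7, h⟩ := step_inj (fb_Bt _ _) (fb_Bt _ _) h
  obtain ⟨a8, a9⟩ := step_inj (fb_Bt _ _) (fb_Bt _ _) h
  have key : ∀ t, fb F t = fb G t → (t ∈ F ↔ t ∈ G) := by
    intro t
    unfold fb
    by_cases h1 : t ∈ F <;> by_cases h2 : t ∈ G <;> simp [h1, h2]
  ext t
  by_cases h3 : t.card = 3
  · rcases ten t h3 with h | h | h | h | h | h | h | h | h | h <;> subst h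
    exacts [key _ a0, key _ a1, key _ a2, key _ a3, key _ a4, key _ a5, key _ a6, key _ a7,
      key _ a8, key _ a9]
  · exact ⟨fun h => absurd (hF t h) h3, fun h => absurd (hG t h) h3⟩

/-- if the walk ends at the code of `X` then `F` is a copy of `X` -/
theorem copy_of_ends {F X : Finset (Finset (Fin 5))} (hF : ∀ e ∈ F, e.card = 3)
    (hX : ∀ e ∈ X, e.card = 3)
    (h : ends 7 (fb F {0,1,2}) (fb F {0,1,3}) (fb F {0,2,3}) (fb F {1,2,3}) (fb F {0,1,4})
      (fb F {0,2,4}) (fb F {1,2,4}) (fb F {0,3,4}) (fb F {1,3,4}) (fb F {2,3,4}) = code X) :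
    ∃ s : Equiv.Perm (Fin 5), F = X.image fun e => e.image s := by
  obtain ⟨s, hs⟩ := ends_pm 7 F
  rw [h] at hs
  have h1 := code_inj (pm_card hF) hX hs
  refine ⟨s.symm, ?_⟩
  change F = pm s.symm X
  rw [← h1, pm_pm]
  have : s.trans s.symm = Equiv.refl _ := by ext i; simp
  rw [this, pm_refl]

end Pool.Agent.R85.GT
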