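import Pool.Agent.R85.GT.Reps2
import Pool.Agent.R85.GT.Trans
import Pool.Agent.H122R2.K5.Lower5

/-! The complete bipartite 3-graph, and the two counting functions. -/

set_option autoImplicit false
set_option maxRecDepth 100000
set_option maxHeartbeats 4000000
open Finset

namespace Pool.Agent.R85.GT
open Pool.Agent.H122R2.N6 Pool.Agent.H37R3.Pen Pool.Agent.H37R3.K5 Pool.Agent.Y580.FL
open Pool.Agent.H122R2.K5

/-- the colour of a vertex -/
def clr (n m : ℕ) (v : Fin n) : Bool := decide (v.val < m)

theorem fiber (m : ℕ) (c : Fin 5 → Bool) :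
    (univ.filter fun x : Fin 5 → Fin (2 * m) => (fun i => clr (2 * m) m (x i)) = c).card
      = m ^ 5 := by
  have h : (univ.filter fun x : Fin 5 → Fin (2 * m) => (fun i => clr (2 * m) m (x i)) = c) =
      Fintype.piFinset fun i => if c i = true then PA (2 * m) m else PB (2 * m) m := by
    ext x
    rw [mem_filter, Fintype.mem_piFinset]
    simp only [mem_univ, true_and]
    have key : ∀ i, (clr (2 * m) m (x i) = c i ↔
        x i ∈ if c i = true then PA (2 * m) m else PB (2 * m) m) := by
      intro i
      unfold clr PA PB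
      cases c i
      · simp
      · simp
    constructor
    · intro hx i
      exact (key i).mp (congrFun hx i)
    · intro hx
      funext i
      exact (key i).mpr (hx i)
  rw [h, Fintype.card_piFinset]
  have h2 : ∀ i : Fin 5, (if c i = true then PA (2 * m) m else PB (2 * m) m).card = m := by
    intro i
    split_ifs
    · exact card_PA m
    · exact card_PB m
  simp only [h2, prod_const, card_univ, Fintype.card_fin]

theorem NF_col (m f : ℕ) :
    NF (fun a b c : Fin (2 * m) => nm (clr (2 * m) m a) (clr (2 * m) m b) (clr (2 * m) m c)) f =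
      m ^ 5 * NF nm f := by
  unfold NF S5
  have h1 : ∀ x : Fin 5 → Fin (2 * m),
      TE (sbn f) (fun a b c : Fin (2 * m) => nm (clr (2 * m) m a) (clr (2 * m) m b) (clr (2 * m) m c))
        (x 0) (x 1) (x 2) (x 3) (x 4) =
      (fun c : Fin 5 → Bool => TE (sbn f) nm (c 0) (c 1) (c 2) (c 3) (c 4))
        (fun i => clr (2 * m) m (x i)) := fun x => rfl
  rw [sum_congr rfl fun x _ => h1 x, ← sum_fiberwise (s := univ)
    (g := fun x : Fin 5 → Fin (2 * m) => fun i => clr (2 * m) m (x i)), mul_sum]
  refine sum_congr rfl fun c _ => ?_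
  rw [sum_congr rfl (g := fun _ => (fun c : Fin 5 → Bool => TE (sbn f) nm (c 0) (c 1) (c 2) (c 3) (c 4)) c)
    (fun x hx => by rw [(mem_filter.mp hx).2]), sum_const, fiber, smul_eq_mul]

theorem tri_bip (n m : ℕ) {a b c : Fin n} (hab : a ≠ b) (hac : a ≠ c) (hbc : b ≠ c) :
    tri (bip n m) a b c = nm (clr n m a) (clr n m b) (clr n m c) := by
  classical
  have h : ({a, b, c} : Finset (Fin n)) ∈ bip n m ↔
      ¬ (a.val < m ∧ b.val < m ∧ c.val < m) ∧ ¬ (¬ a.val < m ∧ ¬ b.val < m ∧ ¬ c.val < m) := by
    unfold bip PA PB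
    rw [mem_filter, mem_powersetCard]
    have h3 : ({a, b, c} : Finset (Fin n)).card = 3 := card_eq_three.mpr ⟨a, b, c, hab, hac, hbc, rfl⟩
    simp only [h3, subset_univ, and_self, true_and, insert_subset_iff, singleton_subset_iff,
      mem_filter, mem_univ]
  unfold tri nm clr
  have e : (@insert (Fin n) (Finset (Fin n)) (@Finset.instInsert (Fin n) fun a b => Classical.propDecidable (a = b)) a
      (@insert (Fin n) (Finset (Fin n)) (@Finset.instInsert (Fin n) fun a b => Classical.propDecidable (a = b)) b {c})) = ({a, b, c} : Finset (Fin n)) := by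
    ext t
    simp only [mem_insert, mem_singleton]
  rw [e]
  by_cases h1 : a.val < m <;> by_cases h2 : b.val < m <;> by_cases h4 : c.val < m <;>
    simp [h, h1, h2, h4]

theorem sbn_le (f m : ℕ) : sbn f m ≤ 1 := by
  unfold sbn
  cases Nat.beq (Nat.land f m) f <;> simp

theorem poly (n : ℕ) : n ^ 5 ≤ n.descFactorial 5 + 10 * n ^ 4 := by
  rcases lt_or_ge n 4 with h | h
  · interval_cases n <;> decide
  · obtain ⟨k, rfl⟩ := Nat.exists_eq_add_of_le h
    have e : (4 + k).descFactorial 5 = k * ((k + 1) * ((k + 2) * ((k + 3) * (k + 4)))) := by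
      simp only [Nat.descFactorial_succ, Nat.descFactorial_zero, mul_one]
      have a0 : 4 + k - 0 = k + 4 := by omega
      have a1 : 4 + k - 1 = k + 3 := by omega
      have a2 : 4 + k - 2 = k + 2 := by omega
      have a3 : 4 + k - 3 = k + 1 := by omega
      have a4 : 4 + k - 4 = k := by omega
      rw [a0, a1, a2, a3, a4]
    rw [e]
    have : k * ((k + 1) * ((k + 2) * ((k + 3) * (k + 4)))) + 10 * (4 + k) ^ 4 =
        (4 + k) ^ 5 + (k + 4) * (35 * k ^ 2 + 230 * k + 384) := by ring
    rw [this]
    exact Nat.le_add_right _ _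

theorem noninj (n : ℕ) :
    (univ.filter fun x : Fin 5 → Fin n => ¬ Function.Injective x).card ≤ 10 * n ^ 4 := by
  have h1 : (univ.filter fun x : Fin 5 → Fin n => Function.Injective x).card
      = n.descFactorial 5 := by
    rw [← Fintype.card_subtype, Fintype.card_congr (Equiv.subtypeInjectiveEquivEmbedding (Fin 5) (Fin n)),
      Fintype.card_embedding_eq, Fintype.card_fin, Fintype.card_fin]
  have h2 : (univ.filter fun x : Fin 5 → Fin n => Function.Injective x).card +
      (univ.filter fun x : Fin 5 → Fin n => ¬ Function.Injective x).card = n ^ 5 := by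
    rw [card_filter_add_card_filter_not, card_univ, Fintype.card_fun, Fintype.card_fin,
      Fintype.card_fin]
  have := poly n
  omega

theorem NF_bip (m f : ℕ) : m ^ 5 * NF nm f ≤ NF (tri (bip (2 * m) m)) f + 160 * m ^ 4 := by
  rw [← NF_col]
  have h := noninj (2 * m)
  have h1 : NF (fun a b c : Fin (2 * m) => nm (clr (2 * m) m a) (clr (2 * m) m b) (clr (2 * m) m c)) f
      ≤ NF (tri (bip (2 * m) m)) f +
        (univ.filter fun x : Fin 5 → Fin (2 * m) => ¬ Function.Injective x).card := by
    rw [card_filter]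
    unfold NF S5
    rw [← sum_add_distrib]
    refine sum_le_sum fun x _ => ?_
    by_cases hi : Function.Injective x
    · have ne : ∀ i j : Fin 5, i ≠ j → x i ≠ x j := fun i j hij he => hij (hi he)
      have e : ∀ i j k : Fin 5, i ≠ j → i ≠ k → j ≠ k →
          tri (bip (2 * m) m) (x i) (x j) (x k) =
            nm (clr (2 * m) m (x i)) (clr (2 * m) m (x j)) (clr (2 * m) m (x k)) :=
        fun i j k hij hik hjk => tri_bip _ _ (ne i j hij) (ne i k hik) (ne j k hjk)
      unfold TE
      rw [e 0 1 2 (by decide) (by decide) (by decide), e 0 1 3 (by decide) (by decide) (by decide),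
        e 0 2 3 (by decide) (by decide) (by decide), e 1 2 3 (by decide) (by decide) (by decide),
        e 0 1 4 (by decide) (by decide) (by decide), e 0 2 4 (by decide) (by decide) (by decide),
        e 1 2 4 (by decide) (by decide) (by decide), e 0 3 4 (by decide) (by decide) (by decide),
        e 1 3 4 (by decide) (by decide) (by decide), e 2 3 4 (by decide) (by decide) (by decide)]
      exact Nat.le_add_right _ _
    · rw [if_pos hi]
      exact (sbn_le _ _).trans (Nat.le_add_left _ _)
  have h2 : 10 * (2 * m) ^ 4 = 160 * m ^ 4 := by ring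
  omega

/-- maps of the five vertices sending every triple of `F` to a triple of `H` -/
def homs {n : ℕ} (F : Finset (Finset (Fin 5))) (H : Finset (Finset (Fin n))) : ℕ :=
  (univ.filter fun x : Fin 5 → Fin n => ∀ e ∈ F, e.image x ∈ H).card

/-- colourings of the five vertices without monochromatic triples of `F` -/
def colourings (F : Finset (Finset (Fin 5))) : ℕ :=
  (univ.filter fun c : Fin 5 → Bool => ∀ e ∈ F, ∃ i ∈ e, ∃ j ∈ e, c i ≠ c j).card

theorem tri_eq {n : ℕ} (H : Finset (Finset (Fin n))) (a b c : Fin n) :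
    tri H a b c = if ({a, b, c} : Finset (Fin n)) ∈ H then 1 else 0 := by
  unfold tri
  have e : (@insert (Fin n) (Finset (Fin n)) (@Finset.instInsert (Fin n) fun a b => Classical.propDecidable (a = b)) a
      (@insert (Fin n) (Finset (Fin n)) (@Finset.instInsert (Fin n) fun a b => Classical.propDecidable (a = b)) b {c})) = ({a, b, c} : Finset (Fin n)) := by
    ext t
    simp only [mem_insert, mem_singleton]
  rw [e]
  by_cases h : ({a, b, c} : Finset (Fin n)) ∈ H
  · rw [if_pos h, if_pos h]
  · rw [if_neg h, if_neg h]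

theorem tri_img {n : ℕ} (H : Finset (Finset (Fin n))) (x : Fin 5 → Fin n) (i j k : Fin 5) :
    tri H (x i) (x j) (x k) = if ({i, j, k} : Finset (Fin 5)).image x ∈ H then 1 else 0 := by
  rw [tri_eq, image_insert, image_insert, image_singleton]

theorem homs_eq {n : ℕ} {F : Finset (Finset (Fin 5))} (h3 : ∀ e ∈ F, e.card = 3)
    (H : Finset (Finset (Fin n))) : homs F H = NF (tri H) (code F) :=
  (NF_eq_card (tri_sy H) h3 (fun x e => e.image x ∈ H) (fun x => tri_img H x _ _ _)
    (fun x => tri_img H x _ _ _) (fun x => tri_img H x _ _ _) (fun x => tri_img H x _ _ _)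
    (fun x => tri_img H x _ _ _) (fun x => tri_img H x _ _ _) (fun x => tri_img H x _ _ _)
    (fun x => tri_img H x _ _ _) (fun x => tri_img H x _ _ _) (fun x => tri_img H x _ _ _)).symm

theorem nm_if (c : Fin 5 → Bool) (i j k : Fin 5) : nm (c i) (c j) (c k) =
    if (∃ a ∈ ({i, j, k} : Finset (Fin 5)), ∃ b ∈ ({i, j, k} : Finset (Fin 5)), c a ≠ c b)
      then 1 else 0 := by
  simp only [mem_insert, mem_singleton, exists_eq_or_imp, exists_eq_left]
  cases c i <;> cases c j <;> cases c k <;> simp [nm]

theorem colourings_eq {F : Finset (Finset (Fin 5))} (h3 : ∀ e ∈ F, e.card = 3) :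
    colourings F = NF nm (code F) :=
  (NF_eq_card nm_sy h3 (fun c e => ∃ i ∈ e, ∃ j ∈ e, c i ≠ c j) (fun x => nm_if x _ _ _)
    (fun x => nm_if x _ _ _) (fun x => nm_if x _ _ _) (fun x => nm_if x _ _ _)
    (fun x => nm_if x _ _ _) (fun x => nm_if x _ _ _) (fun x => nm_if x _ _ _)
    (fun x => nm_if x _ _ _) (fun x => nm_if x _ _ _) (fun x => nm_if x _ _ _)).symm

theorem lower {F : Finset (Finset (Fin 5))} (h3 : ∀ e ∈ F, e.card = 3) (m : ℕ) :
    colourings F * m ^ 5 ≤ homs F (bip (2 * m) m) + 160 * m ^ 4 := by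
  rw [homs_eq h3, colourings_eq h3, mul_comm]
  exact NF_bip m _

/-- the representatives -/
def okr (e : ℕ) : Bool := decide (e ∈ ([0, 32, 68, 152, 212, 298, 358, 144, 81, 402, 266, 76, 89,
  209, 410, 553, 589, 244, 355, 371, 725, 757, 621, 217, 363, 379, 470, 252, 478, 733, 765, 955,
  991] : List ℕ))

theorem okr_all : (B2 fun b012 => B2 fun b013 => B2 fun b023 => B2 fun b123 => B2 fun b014 => B2 fun b024 => B2 fun b124 => B2 fun b034 => B2 fun b134 => B2 fun b234 =>
  or (k5b b012 b013 b023 b123 b014 b024 b124 b034 b134 b234)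
    (okr (ends 7 b012 b013 b023 b123 b014 b024 b124 b034 b134 b234))) = true := by decide +kernel

end Pool.Agent.R85.GT
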